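import Pool.Agent.Zk35.MP.Cost
import Pool.Agent.Zk35.TM.DualCore

set_option autoImplicit false

/-!
# A fixed matrix times several vectors: one tile
-/

namespace Pool.Agent.Zk35.MP

open Finset Pool.Agent.Zk35.TM

variable {m : ℕ}

/-- all words of length `n` over the outer alphabet -/
def rlists (m : ℕ) : ℕ → Finset (List (Ax m))
  | 0 => {[]}
  | j + 1 => (Finset.univ ×ˢ rlists m j).image (fun p : Ax m × List (Ax m) => p.1 :: p.2)

theorem mem_rlists (j : ℕ) : ∀ l : List (Ax m), l ∈ rlists m j ↔ l.length = j := by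
  induction j with
  | zero => intro l; simp [rlists]
  | succ j ih =>
    intro l
    rw [rlists, Finset.mem_image]
    constructor
    · rintro ⟨⟨i, l'⟩, h, rfl⟩
      simp only [Finset.mem_product, Finset.mem_univ, true_and] at h
      simp [(ih l').1 h]
    · intro h
      rcases l with _ | ⟨i, l⟩
      · simp at h
      · exact ⟨(i, l), by simp [(ih l).2 (by simpa using h)], rfl⟩

theorem rsum_eq {M : Type*} [AddCommGroup M] (j : ℕ) : ∀ f : List (Ax m) → M,
    rsum j f = ∑ l ∈ rlists m j, f l := by
  induction j with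
  | zero => intro f; simp [rsum, rlists]
  | succ j ih =>
    intro f
    simp only [rsum, ih, rlists]
    rw [Finset.sum_image, Finset.sum_product]
    rintro ⟨i, l⟩ _ ⟨i', l'⟩ _ h
    simpa using h

/-- a word over `XS` with given column key and inner word -/
def mergeX : List (Option (Ax m)) → List I2 → List (XS m)
  | [], _ => []
  | some b :: κ, l => Sum.inl b :: mergeX κ l
  | none :: κ, [] => Sum.inr (0, 0) :: mergeX κ []
  | none :: κ, i :: l => Sum.inr i :: mergeX κ l

theorem colX_mergeX (κ : List (Option (Ax m))) : ∀ l, colX (mergeX κ l) = κ := by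
  induction κ with
  | nil => intro l; simp [mergeX, colX]
  | cons k κ ih =>
    intro l
    rcases k with _ | b
    · rcases l with _ | ⟨i, l⟩ <;> simp [mergeX, colX, ih]
    · simp [mergeX, colX, ih]

theorem innX_mergeX (κ : List (Option (Ax m))) : ∀ l : List I2, l.length = nn κ →
    innX (mergeX κ l) = l := by
  induction κ with
  | nil => intro l h; simp only [nn, List.length_eq_zero_iff] at h; simp [mergeX, innX, h]
  | cons k κ ih =>
    intro l h
    rcases k with _ | b
    · rcases l with _ | ⟨i, l⟩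
      · simp [nn] at h
      · simp only [nn, List.length_cons] at h
        simp only [mergeX, innX, List.cons.injEq, true_and]
        exact ih l (by omega)
    · simp only [nn] at h
      simp only [mergeX, innX]
      exact ih l h

theorem length_mergeX (κ : List (Option (Ax m))) : ∀ l : List I2,
    (mergeX κ l).length = κ.length := by
  induction κ with
  | nil => intro l; simp [mergeX]
  | cons k κ ih =>
    intro l
    rcases k with _ | b
    · rcases l with _ | ⟨i, l⟩ <;> simp [mergeX, ih]
    · simp [mergeX, ih]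

theorem nr_mergeX (κ : List (Option (Ax m))) : ∀ l : List I2, nr (mergeX κ l) = nn κ := by
  induction κ with
  | nil => intro l; simp [mergeX, nr, nn]
  | cons k κ ih =>
    intro l
    rcases k with _ | b
    · rcases l with _ | ⟨i, l⟩ <;> simp [mergeX, nr, nn, ih]
    · simp [mergeX, nr, nn, ih]

theorem nn_le_length {α : Type} (l : List (Option α)) : nn l ≤ l.length := by
  induction l with
  | nil => simp [nn]
  | cons k l ih => rcases k with _ | b <;> simp [nn] <;> omega

section Core

variable {K : Type*} [Ring K] {ι μ : Type*}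

/-- the scalars of one tile -/
noncomputable def scal (s J : ℕ) (ρ : ι → List (Ax m)) (τ : μ → List (Option (Ax m)))
    (Z : Matrix μ ι K) : Set K :=
  {g | ∃ cs ∈ words m s J, g = outT (zval (famM ρ τ Z.transpose)) cs}

theorem scal_cost {s J : ℕ} {ρ : ι → List (Ax m)} {τ : μ → List (Option (Ax m))}
    (hτJ : ∀ j, (τ j).length = s ∧ nn (τ j) = J) (Z : Matrix μ ι K) :
    AComp (10 * J * wc ((3 + m) ^ 2) s J) ({0} ∪ ent Z) (scal s J ρ τ Z) := by
  refine outT_cost s J _ _ (Or.inl rfl) (fun l _ => ?_) (fun l hl => ?_)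
  · rcases famM_mem ρ τ Z.transpose (rowZ l) (colZ l) with h | ⟨i, j, h⟩
    · exact Or.inl h
    · exact Or.inr ⟨j, i, h⟩
  · exact famM_eq_zero' _ fun i h => hl (by rw [← nn_colZ, ← h, (hτJ i).2])

/-- the computation of one tile -/
theorem core_dual [Fintype ι] {M : Type*} [AddCommGroup M] [Module K M] {κ : Type*} {s J : ℕ}
    {ρ : ι → List (Ax m)} {σ : κ → List I2} {τ : μ → List (Option (Ax m))}
    (hρ : Function.Injective ρ) (hσ : Function.Injective σ) (hτ : Function.Injective τ)
    (hρJ : ∀ i, (ρ i).length + J = s) (hσJ : ∀ l, (σ l).length = J)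
    (hτJ : ∀ j, (τ j).length = s ∧ nn (τ j) = J) (Z : Matrix μ ι K) (X : Matrix ι κ M) :
    LComp (scal s J ρ τ Z)
      (cf ((3 + m) ^ 2) (m + 7) 10 s J + cf ((3 + m) ^ 2) (m + 7) ((m + 3) * (m + 2) + 7) s J)
      (wc ((3 + m) ^ 2) s J) ({0} ∪ ent X) (ent (act Z X)) := by
  classical
  set S : Set M := {0} ∪ ent X with hS
  set Zf := famM ρ τ Z.transpose with hZf
  set F := famM ρ σ X with hF
  have hx : ∀ l, l.length = s → xvalM F l ∈ S := fun l _ => famM_mem ρ σ X _ _
  have h1 := (pre_cost J s (xvalM F) S hx).toLComp (C := scal s J ρ τ Z)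
  set T1 := {g | ∃ cs ∈ words m s J, g = pre al (xvalM F) cs} with hT1
  set P : List (CS m) → M := fun cs => outT (zval Zf) cs • pre al (xvalM F) cs with hP
  have h2 : LComp (scal s J ρ τ Z) 0 (wc ((3 + m) ^ 2) s J) (S ∪ T1)
      {g | ∃ cs ∈ words m s J, g ∈ ({P cs} : Set M)} := by
    have := LComp.list (C := scal s J ρ τ Z) (p := 0) (m := 1) (S := S ∪ T1)
      (fun cs => {P cs}) (words m s J) (fun cs hcs =>
        .smul (c := outT (zval Zf) cs) (x := pre al (xvalM F) cs) ⟨cs, hcs, rfl⟩
          (Or.inr ⟨cs, hcs, rfl⟩) (.done (Set.singleton_subset_iff.2 (Set.mem_insert _ _))))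
    rwa [length_words, mul_one, mul_zero] at this
  set T2 := {g | ∃ cs ∈ words m s J, g ∈ ({P cs} : Set M)} with hT2
  have hsz : SuppZ J (zval Zf) := by
    intro l hl
    show famM ρ τ Z.transpose (rowZ l) (colZ l) = 0
    exact famM_eq_zero' _ fun i h => hl (by rw [← nn_colZ, ← h, (hτJ i).2])
  have h3 := (preT_cost J s P (S ∪ (T1 ∪ T2)) (Or.inl (Or.inl rfl))
    (fun l hl hl' => Or.inr (Or.inr ⟨l, (mem_words m s J l).2 ⟨hl, hl'⟩, rfl⟩))
    (fun l _ hl' => by
      show outT (zval Zf) l • pre al (xvalM F) l = 0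
      rw [outT_eq_zero l J _ hsz hl', zero_smul])).toLComp (C := scal s J ρ τ Z)
  refine ((h1.trans h2).trans h3).mono subset_rfl (by omega) (by omega) subset_rfl ?_
  rintro g ⟨j, l, rfl⟩
  refine Or.inr ⟨mergeX (τ j) (σ l), ?_, ?_⟩
  · rw [length_mergeX, (hτJ j).1]
  · have hJs : J ≤ s := by
      have := nn_le_length (τ j)
      rw [(hτJ j).1, (hτJ j).2] at this
      exact this
    have h5 := tri_val (mergeX (τ j) (σ l)) J (s - J) Zf F
      (fun r κ hκ => famM_eq_zero' _ fun i h => hκ (by rw [← h, (hτJ i).2]))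
      (fun r l hl => famM_eq_zero' X fun l' h => hl (by rw [← h, hσJ]))
      (by rw [nr_mergeX, (hτJ j).2]) (by rw [length_mergeX, (hτJ j).1]; omega)
    rw [colX_mergeX, innX_mergeX _ _ (by rw [hσJ, (hτJ j).2]), rsum_eq] at h5
    show (∑ i, Z j i • X i l) = tri (zval Zf) (xvalM F) (mergeX (τ j) (σ l))
    rw [h5]
    have h6 : (Finset.univ.image ρ) ⊆ rlists m (s - J) := by
      intro r hr
      rw [Finset.mem_image] at hr
      obtain ⟨i, _, rfl⟩ := hr
      rw [mem_rlists]
      have := hρJ i
      omega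
    rw [← Finset.sum_subset h6, Finset.sum_image fun x _ y _ h => hρ h]
    · refine Finset.sum_congr rfl fun i _ => ?_
      rw [hZf, hF, famM_apply hρ hτ, famM_apply hρ hσ, Matrix.transpose_apply]
    · intro r _ hr
      rw [hZf, famM_eq_zero, zero_smul]
      intro i h
      exact hr (Finset.mem_image.2 ⟨i, Finset.mem_univ _, h⟩)

end Core

/-- all column keys -/
def keys (m : ℕ) : ℕ → ℕ → Finset (List (Option (Ax m)))
  | 0, 0 => {[]}
  | 0, _ + 1 => ∅
  | s + 1, 0 => (Finset.univ ×ˢ keys m s 0).image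
      fun p : Ax m × List (Option (Ax m)) => some p.1 :: p.2
  | s + 1, J + 1 => ((Finset.univ ×ˢ keys m s (J + 1)).image
      fun p : Ax m × List (Option (Ax m)) => some p.1 :: p.2) ∪
      (keys m s J).image fun l => none :: l

theorem of_mem_keys (s : ℕ) : ∀ (J : ℕ) (l : List (Option (Ax m))), l ∈ keys m s J →
    l.length = s ∧ nn l = J := by
  induction s with
  | zero =>
    intro J l h
    rcases J with _ | J
    · simp only [keys, Finset.mem_singleton] at h
      subst h
      simp [nn]
    · simp [keys] at h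
  | succ s ih =>
    intro J l h
    rcases J with _ | J
    · rw [keys, Finset.mem_image] at h
      obtain ⟨⟨a, l'⟩, h1, rfl⟩ := h
      have := ih 0 l' (Finset.mem_product.1 h1).2
      simp only [List.length_cons, nn]
      omega
    · rw [keys, Finset.mem_union, Finset.mem_image, Finset.mem_image] at h
      rcases h with ⟨⟨a, l'⟩, h1, rfl⟩ | ⟨l', h1, rfl⟩
      · have := ih (J + 1) l' (Finset.mem_product.1 h1).2
        simp only [List.length_cons, nn]
        omega
      · have := ih J l' h1
        simp only [List.length_cons, nn]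
        omega

theorem card_keys (s : ℕ) : ∀ J, (keys m s J).card = s.choose J * (3 + m) ^ (s - J) := by
  induction s with
  | zero => intro J; rcases J with _ | J <;> simp [keys]
  | succ s ih =>
    intro J
    have h1 : ∀ J, (((Finset.univ ×ˢ keys m s J).image
      fun p : Ax m × List (Option (Ax m)) => some p.1 :: p.2)).card =
        (3 + m) * (keys m s J).card := by
      intro J
      rw [Finset.card_image_of_injective, Finset.card_product, Finset.card_univ, Fintype.card_sum,
        Fintype.card_fin, Fintype.card_fin]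
      rintro ⟨a, l⟩ ⟨a', l'⟩ h
      simpa using h
    rcases J with _ | J
    · rw [keys, h1, ih]
      simp only [Nat.choose_zero_right, Nat.sub_zero, one_mul]
      rw [pow_succ, mul_comm]
    · rw [keys, Finset.card_union_of_disjoint, h1, ih, Finset.card_image_of_injective, ih,
        Nat.choose_succ_succ, Nat.add_sub_add_right]
      · rcases Nat.lt_or_ge s (J + 1) with h | h
        · rw [Nat.choose_eq_zero_of_lt h]; ring
        · obtain ⟨t, rfl⟩ := Nat.exists_eq_add_of_le h
          have e1 : J + 1 + t - J = t + 1 := by omega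
          have e2 : J + 1 + t - (J + 1) = t := by omega
          rw [e1, e2, pow_succ]
          ring
      · intro l l' h; simpa using h
      · rw [Finset.disjoint_left]
        intro l hl hl'
        rw [Finset.mem_image] at hl hl'
        obtain ⟨⟨a, l1⟩, _, rfl⟩ := hl
        obtain ⟨l2, _, h⟩ := hl'
        simp at h

theorem exists_rows {ι : Type*} [Fintype ι] {s J : ℕ} (hJ : J ≤ s)
    (h : Fintype.card ι ≤ (3 + m) ^ (s - J)) :
    ∃ ρ : ι → List (Ax m), Function.Injective ρ ∧ ∀ i, (ρ i).length + J = s := by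
  have h1 : Fintype.card ι ≤ Fintype.card (Fin (s - J) → Ax m) := by
    rw [Fintype.card_fun, Fintype.card_sum, Fintype.card_fin, Fintype.card_fin, Fintype.card_fin]
    exact h
  obtain ⟨f⟩ := Function.Embedding.nonempty_of_card_le h1
  refine ⟨fun i => List.ofFn (f i), fun i j hij => f.injective (List.ofFn_injective hij),
    fun i => ?_⟩
  rw [List.length_ofFn]
  omega

theorem exists_cols {μ : Type*} [Fintype μ] {s J : ℕ}
    (h : Fintype.card μ ≤ s.choose J * (3 + m) ^ (s - J)) :
    ∃ τ : μ → List (Option (Ax m)), Function.Injective τ ∧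
      ∀ j, (τ j).length = s ∧ nn (τ j) = J := by
  have h1 : Fintype.card μ ≤ Fintype.card (keys m s J) := by
    rw [Fintype.card_coe, card_keys]
    exact h
  obtain ⟨f⟩ := Function.Embedding.nonempty_of_card_le h1
  exact ⟨fun i => (f i).1, fun i j hij => f.injective (Subtype.ext hij),
    fun j => of_mem_keys s J _ (f j).2⟩

/-- one tile -/
theorem tile_dual {K : Type*} [Ring K] {ι μ : Type*} [Fintype ι] [Fintype μ] {s J : ℕ} (m : ℕ)
    (hJ : J ≤ s) (hι : Fintype.card ι ≤ (3 + m) ^ (s - J))
    (hμ : Fintype.card μ ≤ s.choose J * (3 + m) ^ (s - J)) (Z : Matrix μ ι K) :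
    ∃ C : Set K, AComp (10 * J * wc ((3 + m) ^ 2) s J) ({0} ∪ ent Z) C ∧
      ∀ (M : Type*) [AddCommGroup M] [Module K M] (κ : Type*) [Fintype κ],
        Fintype.card κ ≤ 4 ^ J → ∀ X : Matrix ι κ M,
        LComp C
          (cf ((3 + m) ^ 2) (m + 7) 10 s J +
            cf ((3 + m) ^ 2) (m + 7) ((m + 3) * (m + 2) + 7) s J)
          (wc ((3 + m) ^ 2) s J) ({0} ∪ ent X) (ent (act Z X)) := by
  obtain ⟨ρ, h1, h2⟩ := exists_rows hJ hι
  obtain ⟨τ, h5, h6⟩ := exists_cols hμ
  refine ⟨scal s J ρ τ Z, scal_cost h6 Z, ?_⟩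
  intro M _ _ κ _ hκ X
  obtain ⟨σ, h3, h4⟩ := exists_inner hκ
  exact core_dual h1 h3 h5 h2 h4 h6 Z X

end Pool.Agent.Zk35.MP
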