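import Pool.Agent.Zk35.MP.Dual
import Pool.Agent.Zk35.TM.DualCost

set_option autoImplicit false

/-!
# The cost of the transposed algorithm with large outer alphabets
-/

namespace Pool.Agent.Zk35.MP

open Finset Pool.Agent.Zk35.TM

/-- all outer symbols -/
noncomputable def syms (m : ℕ) : List (Ax m × Ax m) := (Finset.univ : Finset (Ax m × Ax m)).toList

theorem mem_syms {m : ℕ} (z : Ax m × Ax m) : z ∈ syms m := by simp [syms]

theorem length_syms (m : ℕ) : (syms m).length = (3 + m) ^ 2 := by
  simp [syms, sq]

/-- all words of length `s` with at most `J` symbols `none` -/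
noncomputable def words (m : ℕ) : ℕ → ℕ → List (List (CS m))
  | 0, _ => [[]]
  | s + 1, 0 => (syms m).flatMap fun z => (words m s 0).map fun l => some z :: l
  | s + 1, J + 1 => ((syms m).flatMap fun z => (words m s (J + 1)).map fun l => some z :: l) ++
      (words m s J).map fun l => none :: l

/-- their number -/
def wc (q : ℕ) : ℕ → ℕ → ℕ
  | 0, _ => 1
  | s + 1, 0 => q * wc q s 0
  | s + 1, J + 1 => q * wc q s (J + 1) + wc q s J

theorem length_words (m s : ℕ) : ∀ J, (words m s J).length = wc ((3 + m) ^ 2) s J := by
  induction s with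
  | zero => intro J; simp [words, wc]
  | succ s ih =>
    intro J
    rcases J with _ | J
    · simp only [words, wc, List.length_flatMap, List.length_map, ih, List.map_const',
        List.sum_replicate, length_syms, smul_eq_mul]
    · simp only [words, wc, List.length_flatMap, List.length_map, ih, List.map_const',
        List.sum_replicate, length_syms, smul_eq_mul, List.length_append]

theorem mem_words (m s : ℕ) : ∀ (J : ℕ) (l : List (CS m)),
    l ∈ words m s J ↔ l.length = s ∧ nn l ≤ J := by
  induction s with
  | zero =>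
    intro J l
    simp only [words, List.mem_singleton, List.length_eq_zero_iff]
    constructor
    · rintro rfl; simp [nn]
    · exact fun h => h.1
  | succ s ih =>
    intro J l
    have key : ∀ J', (l ∈ ((syms m).flatMap fun z => (words m s J').map fun l => some z :: l) ↔
        ∃ z l', l = some z :: l' ∧ l'.length = s ∧ nn l' ≤ J') := by
      intro J'
      simp only [List.mem_flatMap, List.mem_map, ih]
      constructor
      · rintro ⟨z, _, l', h, rfl⟩
        exact ⟨z, l', rfl, h⟩
      · rintro ⟨z, l', rfl, h⟩
        exact ⟨z, mem_syms z, l', h, rfl⟩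
    rcases J with _ | J
    · rw [words, key]
      constructor
      · rintro ⟨z, l', rfl, h1, h2⟩
        simp only [List.length_cons, nn]; omega
      · rintro ⟨h1, h2⟩
        rcases l with _ | ⟨_ | z, l⟩
        · simp at h1
        · simp [nn] at h2
        · simp only [List.length_cons, nn] at h1 h2
          exact ⟨z, l, rfl, by omega, h2⟩
    · rw [words, List.mem_append, key]
      simp only [List.mem_map, ih]
      constructor
      · rintro (⟨z, l', rfl, h1, h2⟩ | ⟨l', ⟨h1, h2⟩, rfl⟩)
        · simp only [List.length_cons, nn]; omega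
        · simp only [List.length_cons, nn]; omega
      · rintro ⟨h1, h2⟩
        rcases l with _ | ⟨_ | z, l⟩
        · simp at h1
        · simp only [List.length_cons, nn] at h1 h2
          exact Or.inr ⟨l, ⟨by omega, by omega⟩, rfl⟩
        · simp only [List.length_cons, nn] at h1 h2
          exact Or.inl ⟨z, l, rfl, by omega, h2⟩

/-- all symbols of the factors -/
noncomputable def xsyms (m : ℕ) : List (XS m) := (Finset.univ : Finset (XS m)).toList

theorem mem_xsyms {m : ℕ} (ξ : XS m) : ξ ∈ xsyms m := by simp [xsyms]

theorem length_xsyms (m : ℕ) : (xsyms m).length = m + 7 := by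
  simp [xsyms]
  omega

/-- a cost function -/
def cf (q N t : ℕ) : ℕ → ℕ → ℕ
  | 0, _ => 0
  | s + 1, J => N * cf q N t s J + t * wc q s J

section

variable {m : ℕ} {G : Type*} [AddCommGroup G]

theorem sum_al (E : XS m → G) (a b : Fin 3) :
    ∑ ξ, al (some (Sum.inl a, Sum.inl b)) ξ • E ξ = ∑ ξ, TM.al (some (a, b)) ξ •
      (fun ξ : TM.XS => match ξ with
        | Sum.inl a => E (Sum.inl (Sum.inl a))
        | Sum.inr i => E (Sum.inr i)) ξ := by
  rw [Fintype.sum_sum_type, Fintype.sum_sum_type, Fintype.sum_sum_type]
  simp [al, TM.al]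

theorem sum_al_none (E : XS m → G) :
    ∑ ξ, al none ξ • E ξ = ∑ ξ, TM.al none ξ •
      (fun ξ : TM.XS => match ξ with
        | Sum.inl a => E (Sum.inl (Sum.inl a))
        | Sum.inr i => E (Sum.inr i)) ξ := by
  rw [Fintype.sum_sum_type, Fintype.sum_sum_type, Fintype.sum_sum_type]
  simp [al, TM.al]

theorem sum_al_other (E : XS m → G) (a b : Ax m) (h : ¬ cor (a, b)) :
    ∑ ξ, al (some (a, b)) ξ • E ξ = E (Sum.inl a) := by
  have h1 : ∀ i : I2, al (some (a, b)) (Sum.inr i) = 0 := by
    intro i
    rcases a with a | a <;> rcases b with b | b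
    · exact absurd trivial h
    · rfl
    · rfl
    · rfl
  rw [Fintype.sum_sum_type]
  simp only [h1, zero_smul, Finset.sum_const_zero, add_zero]
  simp [al]

theorem locA (S : Set G) (E : XS m → G) (hE : ∀ ξ, E ξ ∈ S) :
    AComp 10 S {g | ∃ c, g = ∑ ξ, al c ξ • E ξ} := by
  have h1 := TM.local_al S (fun ξ : TM.XS => match ξ with
        | Sum.inl a => E (Sum.inl (Sum.inl a))
        | Sum.inr i => E (Sum.inr i)) (fun ξ => by rcases ξ with a | i <;> exact hE _)
  have h2 := (AComp.done (p := 0) (subset_refl S)).union h1
  refine h2.mono (by omega) subset_rfl ?_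
  rintro g ⟨c, rfl⟩
  rcases c with _ | ⟨a, b⟩
  · exact Or.inr ⟨none, sum_al_none E⟩
  · by_cases h : cor (a, b)
    · rcases a with a | a <;> rcases b with b | b
      · exact Or.inr ⟨some (a, b), sum_al E a b⟩
      · exact absurd h id
      · exact absurd h id
      · exact absurd h id
    · rw [sum_al_other E a b h]
      exact Or.inl (hE _)

theorem pre_cost (J : ℕ) (s : ℕ) :
    ∀ (x : List (XS m) → G) (S : Set G), (∀ l, l.length = s → x l ∈ S) →
    AComp (cf ((3 + m) ^ 2) (m + 7) 10 s J) S {g | ∃ cs ∈ words m s J, g = pre al x cs} := by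
  induction s with
  | zero =>
    intro x S hx
    refine .done ?_
    rintro g ⟨cs, hcs, rfl⟩
    simp only [words, List.mem_singleton] at hcs
    subst hcs
    exact hx _ rfl
  | succ s ih =>
    intro x S hx
    have h1 := AComp.list (p := cf ((3 + m) ^ 2) (m + 7) 10 s J) (S := S)
      (fun ξ => {g | ∃ cs ∈ words m s J, g = pre al (fun l => x (ξ :: l)) cs}) (xsyms m)
      (fun ξ _ => ih _ S fun l hl => hx _ (by simp [hl]))
    set T := {g | ∃ ξ ∈ xsyms m, g ∈ {g | ∃ cs ∈ words m s J,
      g = pre al (fun l => x (ξ :: l)) cs}} with hT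
    have h2 := AComp.list (p := 10) (S := S ∪ T)
      (fun cs : List (CS m) => {g | ∃ c, g = pre al x (c :: cs)}) (words m s J)
      (fun cs hcs => locA _ (fun ξ => pre al (fun l => x (ξ :: l)) cs)
        (fun ξ => Or.inr ⟨ξ, mem_xsyms ξ, cs, hcs, rfl⟩))
    refine (h1.trans h2).mono ?_ subset_rfl ?_
    · rw [length_words, length_xsyms, cf, mul_comm 10]
    · rintro g ⟨cs, hcs, rfl⟩
      refine Or.inr ?_
      rw [mem_words] at hcs
      rcases cs with _ | ⟨c, cs⟩
      · simp at hcs
      · refine ⟨cs, ?_, c, rfl⟩
        rw [mem_words]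
        simp only [List.length_cons] at hcs
        refine ⟨by omega, ?_⟩
        rcases c with _ | z <;> simp only [nn] at hcs <;> omega

theorem locT_inl (P : CS m → G) (b : Fin 3) : ∑ c, be c (Sum.inl (Sum.inl b)) • P c =
    P (some (Sum.inl 0, Sum.inl b)) + (P none ::
      ((Finset.univ.erase (Sum.inl 0 : Ax m)).toList.map
        fun a => P (some (a, Sum.inl b)))).sum := by
  rw [List.sum_cons, Finset.sum_map_toList, ← add_assoc, add_comm (P (some _)), add_assoc,
    Finset.add_sum_erase _ (fun a => P (some (a, Sum.inl b))) (Finset.mem_univ (Sum.inl 0 : Ax m)),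
    Fintype.sum_option, Fintype.sum_prod_type]
  have h1 : ∀ a b' : Ax m, be (some (a, b')) (Sum.inl (Sum.inl b)) =
      if b' = Sum.inl b then 1 else 0 := by
    intro a b'
    rcases a with a | a <;> rcases b' with b' | b' <;> rfl
  have h2 : be (none : CS m) (Sum.inl (Sum.inl b)) = 1 := rfl
  simp only [h1, h2, one_smul, ite_smul, zero_smul, Finset.sum_ite_eq', Finset.mem_univ, if_true]

theorem locT_inm (P : CS m → G) (b : Fin m) : ∑ c, be c (Sum.inl (Sum.inr b)) • P c =
    P (some (Sum.inl 0, Sum.inr b)) +
      ((Finset.univ.erase (Sum.inl 0 : Ax m)).toList.map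
        fun a => P (some (a, Sum.inr b))).sum := by
  rw [Finset.sum_map_toList,
    Finset.add_sum_erase _ (fun a => P (some (a, Sum.inr b))) (Finset.mem_univ (Sum.inl 0 : Ax m)),
    Fintype.sum_option, Fintype.sum_prod_type]
  have h1 : ∀ a b' : Ax m, be (some (a, b')) (Sum.inl (Sum.inr b)) =
      if b' = Sum.inr b then 1 else 0 := by
    intro a b'
    rcases a with a | a <;> rcases b' with b' | b' <;> rfl
  have h2 : be (none : CS m) (Sum.inl (Sum.inr b)) = 0 := rfl
  simp only [h1, h2, one_smul, ite_smul, zero_smul, Finset.sum_ite_eq', Finset.mem_univ, if_true,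
    zero_add]

theorem locT_inr (P : CS m → G) (i l : Fin 2) : ∑ c, be c (Sum.inr (i, l)) • P c =
    P (some (Sum.inl i.castSucc, Sum.inl l.castSucc)) -
      P (some (Sum.inl i.castSucc, Sum.inl 2)) := by
  have h := TM.locT_inr (fun c : TM.CS => match c with
    | none => P none
    | some (a, b) => P (some (Sum.inl a, Sum.inl b))) i l
  rw [Fintype.sum_option] at h ⊢
  have h1 : be (none : CS m) (Sum.inr (i, l)) = 0 := rfl
  have h2 : TM.be none (Sum.inr (i, l)) = 0 := rfl
  have h3 : ∀ a : Fin 3, ∀ b : Fin m, be (some (Sum.inl a, Sum.inr b)) (Sum.inr (i, l)) = 0 :=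
    fun _ _ => rfl
  have h4 : ∀ a : Fin m, ∀ b : Ax m, be (some (Sum.inr a, b)) (Sum.inr (i, l)) = 0 := by
    intro a b
    rcases b with b | b <;> rfl
  have h5 : ∀ a b : Fin 3, be (some (Sum.inl a, Sum.inl b) : CS m) (Sum.inr (i, l)) =
    TM.be (some (a, b)) (Sum.inr (i, l)) := fun _ _ => rfl
  rw [h2, zero_smul, zero_add, Fintype.sum_prod_type] at h
  rw [h1, zero_smul, zero_add, Fintype.sum_prod_type, Fintype.sum_sum_type]
  simp only [h4, zero_smul, Finset.sum_const_zero, add_zero, Fintype.sum_sum_type, h3, h5]
  exact h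

omit [AddCommGroup G] in
theorem length_erase_list (f : Ax m → G) :
    ((Finset.univ.erase (Sum.inl 0 : Ax m)).toList.map f).length = m + 2 := by
  rw [List.length_map, Finset.length_toList, Finset.card_erase_of_mem (Finset.mem_univ _)]
  simp
  omega

theorem locT (S : Set G) (P : CS m → G) (hP : ∀ c, P c ∈ S) :
    AComp ((m + 3) * (m + 2) + 7) S {g | ∃ η, g = ∑ c, be c η • P c} := by
  have h1 := AComp.list (p := m + 3) (S := S)
    (fun b : Fin 3 => {P (some (Sum.inl 0, Sum.inl b)) + (P none ::
      ((Finset.univ.erase (Sum.inl 0 : Ax m)).toList.map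
        fun a => P (some (a, Sum.inl b)))).sum})
    [0, 1, 2] (fun b _ => by
      have h := AComp.add_list (P none :: ((Finset.univ.erase (Sum.inl 0 : Ax m)).toList.map
        fun a => P (some (a, Sum.inl b)))) (P (some (Sum.inl 0, Sum.inl b))) S
        (hP _) (by
          intro g hg
          rcases List.mem_cons.1 hg with rfl | hg
          · exact hP _
          rw [List.mem_map] at hg
          obtain ⟨a, _, rfl⟩ := hg
          exact hP _)
      rw [List.length_cons, length_erase_list] at h
      exact h)
  have h1' := AComp.list (p := m + 2) (S := S)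
    (fun b : Fin m => {P (some (Sum.inl 0, Sum.inr b)) +
      ((Finset.univ.erase (Sum.inl 0 : Ax m)).toList.map
        fun a => P (some (a, Sum.inr b))).sum})
    (Finset.univ : Finset (Fin m)).toList (fun b _ => by
      have h := AComp.add_list ((Finset.univ.erase (Sum.inl 0 : Ax m)).toList.map
        fun a => P (some (a, Sum.inr b))) (P (some (Sum.inl 0, Sum.inr b))) S
        (hP _) (by
          intro g hg
          rw [List.mem_map] at hg
          obtain ⟨a, _, rfl⟩ := hg
          exact hP _)
      rw [length_erase_list] at h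
      exact h)
  have h2 := AComp.list (p := 1) (S := S)
    (fun i : I2 => {P (some (Sum.inl i.1.castSucc, Sum.inl i.2.castSucc)) -
      P (some (Sum.inl i.1.castSucc, Sum.inl 2))})
    [(0, 0), (0, 1), (1, 0), (1, 1)] (fun i _ => .sub (hP _) (hP _)
      (.done (Set.singleton_subset_iff.2 (Set.mem_insert _ _))))
  rw [Finset.length_toList, Finset.card_univ, Fintype.card_fin] at h1'
  refine ((h1.union h1').union h2).mono ?_ subset_rfl ?_
  · simp only [List.length_cons, List.length_nil]
    ring_nf
    omega
  · rintro g ⟨η, rfl⟩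
    rcases η with (b | b) | ⟨i, l⟩
    · refine Or.inl (Or.inl ⟨b, ?_, locT_inl P b⟩)
      fin_cases b <;> simp
    · exact Or.inl (Or.inr ⟨b, by simp, locT_inm P b⟩)
    · refine Or.inr ⟨(i, l), ?_, locT_inr P i l⟩
      fin_cases i <;> fin_cases l <;> simp

theorem preT_cost (J : ℕ) (s : ℕ) : ∀ (P : List (CS m) → G) (S : Set G), (0 : G) ∈ S →
    (∀ l, l.length = s → nn l ≤ J → P l ∈ S) → (∀ l, l.length = s → J < nn l → P l = 0) →
    AComp (cf ((3 + m) ^ 2) (m + 7) ((m + 3) * (m + 2) + 7) s J) S
      {g | ∃ ηs : List (XS m), ηs.length = s ∧ g = preT be P ηs} := by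
  induction s with
  | zero =>
    intro P S _ hP _
    refine .done ?_
    rintro g ⟨ηs, hηs, rfl⟩
    rw [List.length_eq_zero_iff] at hηs
    subst hηs
    exact hP [] rfl (by simp [nn])
  | succ s ih =>
    intro P S h0 hP hP0
    have hPS : ∀ l, l.length = s + 1 → P l ∈ S := by
      intro l hl
      rcases Nat.lt_or_ge J (nn l) with h | h
      · rw [hP0 l hl h]; exact h0
      · exact hP l hl h
    have h1 := AComp.list (p := (m + 3) * (m + 2) + 7) (S := S)
      (fun cs : List (CS m) => {g | ∃ η, g = ∑ c, be c η • P (c :: cs)}) (words m s J)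
      (fun cs hcs => locT S (fun c => P (c :: cs)) (fun c => hPS _ (by
        rw [mem_words] at hcs
        simp only [List.length_cons]
        omega)))
    set T := {g | ∃ cs ∈ words m s J, g ∈ {g | ∃ η, g = ∑ c, be c η • P (c :: cs)}} with hT
    have h2 := AComp.list (p := cf ((3 + m) ^ 2) (m + 7) ((m + 3) * (m + 2) + 7) s J)
      (S := S ∪ T)
      (fun η : XS m => {g | ∃ ηs : List (XS m), ηs.length = s ∧
        g = preT be (fun cs => ∑ c, be c η • P (c :: cs)) ηs}) (xsyms m)
      (fun η _ => ih _ (S ∪ T) (Or.inl h0)
        (fun l hl hl' => Or.inr ⟨l, (mem_words m s J l).2 ⟨hl, hl'⟩, η, rfl⟩)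
        (fun l hl hl' => Finset.sum_eq_zero fun c _ => by
          rw [hP0 (c :: l) (by simp [hl]) (lt_of_lt_of_le hl' (by
            rcases c with _ | a <;> simp [nn])), smul_zero]))
    refine (h1.trans h2).mono ?_ subset_rfl ?_
    · rw [length_words, length_xsyms, cf, add_comm,
        mul_comm (wc ((3 + m) ^ 2) s J)]
    · rintro g ⟨ηs, hηs, rfl⟩
      rcases ηs with _ | ⟨η, ηs⟩
      · simp at hηs
      · refine Or.inr ⟨η, mem_xsyms η, ηs, by simpa using hηs, preT_cons _ _ _ _⟩

end

section

variable {m : ℕ} {K : Type*} [Ring K]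

theorem outT_eq_zero (cs : List (CS m)) : ∀ (j : ℕ) (z : List (CS m) → K), SuppZ j z →
    j < nn cs → outT z cs = 0 := by
  induction cs with
  | nil => intro j z _ h; simp [nn] at h
  | cons c cs ih =>
    intro j z hz h
    rcases c with _ | a
    · simp only [outT]
      rcases j with _ | j
      · rw [hz.tnone_zero, outT_zero, neg_zero]
      · rw [ih j _ hz.tnone (by simp only [nn] at h; omega), neg_zero]
    · simp only [nn] at h
      simp only [outT]
      rw [ih j _ (hz.tsome a) h, zero_add]
      rcases j with _ | j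
      · rw [hz.tnone_zero, outT_zero, ite_self]
      · rw [ih j _ hz.tnone (by omega), ite_self]

theorem outT_cost (s : ℕ) : ∀ (J : ℕ) (z : List (CS m) → K) (S : Set K), (0 : K) ∈ S →
    (∀ l, l.length = s → z l ∈ S) → SuppZ J z →
    AComp (10 * J * wc ((3 + m) ^ 2) s J) S {g | ∃ cs ∈ words m s J, g = outT z cs} := by
  induction s with
  | zero =>
    intro J z S _ hz _
    refine .done ?_
    rintro g ⟨cs, hcs, rfl⟩
    simp only [words, List.mem_singleton] at hcs
    subst hcs
    exact hz [] rfl
  | succ s ih =>
    intro J z S h0 hz hJ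
    have h1 := AComp.list (p := 10 * J * wc ((3 + m) ^ 2) s J) (S := S)
      (fun a => {g | ∃ cs ∈ words m s J, g = outT (fun l => z (some a :: l)) cs}) (syms m)
      (fun a _ => ih J _ S h0 (fun l hl => hz _ (by simp [hl])) (hJ.tsome a))
    set T := {g | ∃ a ∈ syms m, g ∈ {g | ∃ cs ∈ words m s J,
      g = outT (fun l => z (some a :: l)) cs}} with hT
    rcases J with _ | J
    · refine h1.mono (by simp) subset_rfl ?_
      rintro g ⟨cs, hcs, rfl⟩
      rw [mem_words] at hcs
      rcases cs with _ | ⟨_ | a, cs⟩
      · simp at hcs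
      · simp [nn] at hcs
      · refine ⟨a, mem_syms a, cs, ?_, ?_⟩
        · rw [mem_words]
          simp only [List.length_cons, nn] at hcs
          omega
        · simp only [outT]
          rw [hJ.tnone_zero, outT_zero, ite_self, add_zero]
    · have h2 := ih J (fun l => z (none :: l)) S h0 (fun l hl => hz _ (by simp [hl])) hJ.tnone
      set T' := {g | ∃ cs ∈ words m s J, g = outT (fun l => z (none :: l)) cs} with hT'
      have h3 := AComp.list (p := 10) (S := S ∪ (T ∪ T'))
        (fun cs : List (CS m) => {g | ∃ c : CS m, (∀ a, c = some a → cor a) ∧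
          g = outT z (c :: cs)}) (words m s J) (fun cs hcs => by
          have e1 : outT (fun l => z (none :: l)) cs ∈ S ∪ (T ∪ T') :=
            Or.inr (Or.inr ⟨cs, hcs, rfl⟩)
          have h4 := AComp.list (p := 1) (S := S ∪ (T ∪ T'))
            (fun a : Fin 3 × Fin 3 => {outT z (some (Sum.inl a.1, Sum.inl a.2) :: cs)})
            zsyms (fun a _ =>
              .add (Or.inr (Or.inl ⟨(Sum.inl a.1, Sum.inl a.2), mem_syms _, cs, by
                rw [mem_words] at hcs ⊢
                omega, rfl⟩)) e1 (.done (by
                  rw [Set.singleton_subset_iff]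
                  simp only [outT]
                  rw [if_pos (show cor (Sum.inl a.1, Sum.inl a.2) from trivial)]
                  exact Set.mem_insert _ _)))
          have h5 : AComp 1 (S ∪ (T ∪ T')) {outT z (none :: cs)} :=
            .sub (Or.inl h0) e1 (.done (by
              rw [Set.singleton_subset_iff, zero_sub]
              exact Set.mem_insert _ _))
          refine (h4.union h5).mono (by simp [zsyms]) subset_rfl ?_
          rintro g ⟨c, hc, rfl⟩
          rcases c with _ | ⟨a, b⟩
          · exact Or.inr rfl
          · have := hc (a, b) rfl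
            rcases a with a | a <;> rcases b with b | b
            · exact Or.inl ⟨(a, b), mem_zsyms _, rfl⟩
            · exact absurd this id
            · exact absurd this id
            · exact absurd this id)
      refine ((h1.union h2).trans h3).mono ?_ subset_rfl ?_
      · rw [length_words, length_syms, wc]
        ring_nf
        omega
      · rintro g ⟨cs, hcs, rfl⟩
        rw [mem_words] at hcs
        rcases cs with _ | ⟨c, cs⟩
        · simp at hcs
        · simp only [List.length_cons] at hcs
          rcases Nat.lt_or_ge J (nn cs) with h | h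
          · rcases c with _ | a
            · simp only [nn] at hcs; omega
            · simp only [nn] at hcs
              refine Or.inl (Or.inl ⟨a, mem_syms a, cs, ?_, ?_⟩)
              · rw [mem_words]; omega
              · simp only [outT]
                rw [outT_eq_zero cs J _ hJ.tnone h, ite_self, add_zero]
          · rcases c with _ | a
            · exact Or.inr ⟨cs, (mem_words _ _ _ _).2 ⟨by omega, h⟩, none, by simp, rfl⟩
            · by_cases hcor : cor a
              · exact Or.inr ⟨cs, (mem_words _ _ _ _).2 ⟨by omega, h⟩, some a, by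
                  rintro a' h'
                  rw [← Option.some.inj h']
                  exact hcor, rfl⟩
              · refine Or.inl (Or.inl ⟨a, mem_syms a, cs, ?_, ?_⟩)
                · rw [mem_words]; omega
                · simp only [outT]
                  rw [if_neg hcor, add_zero]

end

end Pool.Agent.Zk35.MP
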