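import Pool.Agent.Zk35.MP.Local

set_option autoImplicit false

/-!
# The transposed identity for words
-/

namespace Pool.Agent.Zk35.MP

open Finset Pool.Agent.Zk35.TM

variable {m : ℕ}

section

variable {G : Type*} [AddCommGroup G]

/-- the linear forms of the products, as a function of the family `x` -/
def pre (co : CS m → XS m → ℤ) : (List (XS m) → G) → List (CS m) → G
  | x, [] => x []
  | x, c :: cs => ∑ ξ, co c ξ • pre co (fun l => x (ξ :: l)) cs

/-- the transposed output transformation -/
def outT : (List (CS m) → G) → List (CS m) → G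
  | z, [] => z []
  | z, some a :: cs => outT (fun l => z (some a :: l)) cs +
      if cor a then outT (fun l => z (none :: l)) cs else 0
  | z, none :: cs => - outT (fun l => z (none :: l)) cs

/-- the transpose of `pre co` -/
def preT (co : CS m → XS m → ℤ) : (List (CS m) → G) → List (XS m) → G
  | P, [] => P []
  | P, η :: ηs => ∑ c, co c η • preT co (fun l => P (c :: l)) ηs

theorem pre_zero (co : CS m → XS m → ℤ) (cs : List (CS m)) : pre co (fun _ => (0 : G)) cs = 0 := by
  induction cs with
  | nil => simp [pre]
  | cons c cs ih => simp [pre, ih]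

theorem preT_sum {ι : Type*} (co : CS m → XS m → ℤ) (s : Finset ι) (ηs : List (XS m)) :
    ∀ P : ι → List (CS m) → G,
    preT co (fun l => ∑ i ∈ s, P i l) ηs = ∑ i ∈ s, preT co (P i) ηs := by
  induction ηs with
  | nil => intro P; simp [preT]
  | cons η ηs ih =>
    intro P
    simp only [preT, ih, Finset.smul_sum]
    rw [Finset.sum_comm]

theorem preT_smul (co : CS m → XS m → ℤ) (n : ℤ) (ηs : List (XS m)) : ∀ P : List (CS m) → G,
    preT co (fun l => n • P l) ηs = n • preT co P ηs := by
  induction ηs with
  | nil => intro P; simp [preT]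
  | cons η ηs ih =>
    intro P
    simp only [preT, ih, Finset.smul_sum]
    exact Finset.sum_congr rfl fun c _ => smul_comm _ _ _

theorem preT_zero (co : CS m → XS m → ℤ) (ηs : List (XS m)) :
    preT co (fun _ => (0 : G)) ηs = 0 := by
  induction ηs with
  | nil => simp [preT]
  | cons η ηs ih => simp [preT, ih]

theorem preT_add (co : CS m → XS m → ℤ) (ηs : List (XS m)) : ∀ P Q : List (CS m) → G,
    preT co (fun l => P l + Q l) ηs = preT co P ηs + preT co Q ηs := by
  induction ηs with
  | nil => intro P Q; simp [preT]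
  | cons η ηs ih =>
    intro P Q
    simp only [preT, ih, smul_add, Finset.sum_add_distrib]

theorem preT_neg (co : CS m → XS m → ℤ) (ηs : List (XS m)) : ∀ P : List (CS m) → G,
    preT co (fun l => - P l) ηs = - preT co P ηs := by
  induction ηs with
  | nil => intro P; simp [preT]
  | cons η ηs ih =>
    intro P
    simp only [preT, ih, smul_neg, Finset.sum_neg_distrib]

theorem preT_cons (co : CS m → XS m → ℤ) (P : List (CS m) → G) (η : XS m) (ηs : List (XS m)) :
    preT co P (η :: ηs) = preT co (fun l => ∑ c, co c η • P (c :: l)) ηs := by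
  rw [preT_sum]
  simp only [preT_smul]
  rfl

theorem outT_zero (cs : List (CS m)) : outT (fun _ => (0 : G)) cs = 0 := by
  induction cs with
  | nil => simp [outT]
  | cons c cs ih => rcases c with _ | a <;> simp [outT, ih]

end

section Trilinear

variable {K M : Type*} [Ring K] [AddCommGroup M] [Module K M]

/-- the result of the transposed algorithm -/
def tri (z : List (CS m) → K) (x : List (XS m) → M) (ηs : List (XS m)) : M :=
  preT be (fun cs => outT z cs • pre al x cs) ηs

theorem tri_zero_left (x : List (XS m) → M) (ηs : List (XS m)) :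
    tri (fun _ => (0 : K)) x ηs = 0 := by
  simp [tri, outT_zero, preT_zero]

theorem tri_zero_right (z : List (CS m) → K) (ηs : List (XS m)) :
    tri z (fun _ => (0 : M)) ηs = 0 := by
  simp [tri, pre_zero, preT_zero]

theorem preT_cons_some (z : List (CS m) → K) (x : List (XS m) → M) (a : Ax m × Ax m)
    (ηs : List (XS m)) :
    preT be (fun cs => outT z (some a :: cs) • pre al x (some a :: cs)) ηs =
      ∑ ξ, al (some a) ξ • (tri (fun l => z (some a :: l)) (fun l => x (ξ :: l)) ηs +
        if cor a then tri (fun l => z (none :: l)) (fun l => x (ξ :: l)) ηs else 0) := by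
  simp only [outT, pre, Finset.smul_sum, preT_sum, tri]
  refine Finset.sum_congr rfl fun ξ _ => ?_
  by_cases h : cor a
  · simp only [if_pos h]
    rw [← preT_add, ← preT_smul]
    congr 1
    funext cs
    rw [smul_comm, add_smul]
  · simp only [if_neg h, add_zero]
    rw [← preT_smul]
    congr 1
    funext cs
    rw [smul_comm]

theorem preT_cons_none (z : List (CS m) → K) (x : List (XS m) → M) (ηs : List (XS m)) :
    preT be (fun cs => outT z (none :: cs) • pre al x (none :: cs)) ηs =
      - ∑ ξ, al none ξ • tri (fun l => z (none :: l)) (fun l => x (ξ :: l)) ηs := by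
  simp only [outT, pre, Finset.smul_sum, preT_sum, tri]
  rw [← Finset.sum_neg_distrib]
  refine Finset.sum_congr rfl fun ξ _ => ?_
  rw [← smul_neg, ← preT_neg, ← preT_smul]
  congr 1
  funext cs
  rw [smul_comm, neg_smul]

theorem tri_cons (z : List (CS m) → K) (x : List (XS m) → M) (η : XS m) (ηs : List (XS m)) :
    tri z x (η :: ηs) =
      ∑ ζ, ∑ ξ, tc ζ ξ η • tri (fun l => z (ζ :: l)) (fun l => x (ξ :: l)) ηs := by
  have h : tri z x (η :: ηs) = ∑ c, be c η •
      preT be (fun cs => outT z (c :: cs) • pre al x (c :: cs)) ηs := rfl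
  rw [h, Fintype.sum_option, Fintype.sum_option]
  simp only [preT_cons_some, preT_cons_none, tc, sub_smul, Finset.sum_smul, smul_add,
    Finset.sum_add_distrib, Finset.sum_sub_distrib, Finset.smul_sum, smul_neg, smul_smul,
    ite_smul, zero_smul, smul_ite, smul_zero]
  have e1 : ∀ (c : CS m) (ξ : XS m), be c η * al c ξ = al c ξ * be c η := fun c ξ => mul_comm _ _
  simp only [e1]
  rw [Finset.sum_comm (s := (Finset.univ : Finset (XS m)))
    (t := (Finset.univ : Finset (Ax m × Ax m)))]
  abel

/-- `z` vanishes outside the words with `j` symbols `none` -/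
def SuppZ (j : ℕ) (z : List (CS m) → K) : Prop := ∀ l, nn l ≠ j → z l = 0

theorem SuppZ.tsome {j : ℕ} {z : List (CS m) → K} (h : SuppZ j z) (a : Ax m × Ax m) :
    SuppZ j (fun l => z (some a :: l)) := fun _ hl => h _ hl

theorem SuppZ.tnone {j : ℕ} {z : List (CS m) → K} (h : SuppZ (j + 1) z) :
    SuppZ j (fun l => z (none :: l)) := fun _ hl => h _ (by
  simp only [nn]; omega)

theorem SuppZ.tnone_zero {z : List (CS m) → K} (h : SuppZ 0 z) :
    (fun l => z (none :: l)) = fun _ => 0 := by
  funext l
  exact h _ (by simp [nn])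

/-- the number of inner symbols -/
def nr : List (XS m) → ℕ
  | [] => 0
  | Sum.inl _ :: l => nr l
  | Sum.inr _ :: l => nr l + 1

/-- `x` vanishes outside the words with `j` inner symbols -/
def SuppM (j : ℕ) (x : List (XS m) → M) : Prop := ∀ l, nr l ≠ j → x l = 0

theorem SuppM.inl {j : ℕ} {x : List (XS m) → M} (h : SuppM j x) (a : Ax m) :
    SuppM j (fun l => x (Sum.inl a :: l)) := fun _ hl => h _ hl

theorem SuppM.inr {j : ℕ} {x : List (XS m) → M} (h : SuppM (j + 1) x) (i : I2) :
    SuppM j (fun l => x (Sum.inr i :: l)) := fun _ hl => h _ (by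
  simp only [nr]; omega)

theorem SuppM.inr_zero {x : List (XS m) → M} (h : SuppM 0 x) (i : I2) :
    (fun l => x (Sum.inr i :: l)) = fun _ => 0 := by
  funext l
  exact h _ (by simp [nr])

theorem SuppM.cons {j : ℕ} {x : List (XS m) → M} (h : SuppM j x) (ξ : XS m) :
    (fun l => x (ξ :: l)) = (fun _ => 0) ∨ ∃ j', j' ≤ j ∧ SuppM j' (fun l => x (ξ :: l)) := by
  rcases ξ with a | i
  · exact Or.inr ⟨j, le_rfl, h.inl a⟩
  · rcases j with _ | j
    · exact Or.inl (h.inr_zero i)
    · exact Or.inr ⟨j, Nat.le_succ j, h.inr i⟩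

theorem tri_eq_zero (ηs : List (XS m)) : ∀ (z : List (CS m) → K) (x : List (XS m) → M)
    (jz jx : ℕ), SuppZ jz z → SuppM jx x → (jx < jz ∨ nr ηs < jz) → tri z x ηs = 0 := by
  induction ηs with
  | nil =>
    intro z x jz jx hz hx h
    have : z [] = 0 := hz _ (by simp only [nn]; simp only [nr] at h; omega)
    simp [tri, preT, outT, this]
  | cons η ηs ih =>
    intro z x jz jx hz hx h
    rw [tri_cons]
    refine Finset.sum_eq_zero fun ζ _ => Finset.sum_eq_zero fun ξ _ => ?_
    have hnr : nr ηs ≤ nr (η :: ηs) := by rcases η with a | i <;> simp [nr]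
    rcases ζ with _ | a
    · rcases ξ with a | i
      · rw [tc_none]; rcases η with a' | i' <;> simp
      · rcases η with a' | i'
        · rw [tc_none]; simp
        · rcases jz with _ | jz
          · rw [hz.tnone_zero, tri_zero_left, smul_zero]
          rcases jx with _ | jx
          · rw [hx.inr_zero i, tri_zero_right, smul_zero]
          rw [ih _ _ jz jx hz.tnone (hx.inr i) (by simp only [nr] at h; omega), smul_zero]
    · rcases hx.cons ξ with h' | ⟨jx', hjx, hx'⟩
      · rw [h', tri_zero_right, smul_zero]
      rw [ih _ _ jz jx' (hz.tsome a) hx' (by omega), smul_zero]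

theorem tri_inl {j : ℕ} {z : List (CS m) → K} {x : List (XS m) → M} {ηs : List (XS m)}
    (hz : SuppZ j z) (hx : SuppM j x) (b : Ax m) : tri z x (Sum.inl b :: ηs) =
      ∑ a, tri (fun l => z (some (a, b) :: l)) (fun l => x (Sum.inl a :: l)) ηs := by
  rw [tri_cons, Fintype.sum_option]
  have h1 : ∑ ξ, tc none ξ (Sum.inl b) •
      tri (fun l => z (none :: l)) (fun l => x (ξ :: l)) ηs = 0 := by
    refine Finset.sum_eq_zero fun ξ _ => ?_
    rw [tc_none]
    rcases ξ with a | i <;> simp
  rw [h1, zero_add, Fintype.sum_prod_type]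
  refine Finset.sum_congr rfl fun a _ => ?_
  have h2 : ∀ (b' : Ax m) (i : I2), tc (some (a, b')) (Sum.inr i) (Sum.inl b) •
      tri (fun l => z (some (a, b') :: l)) (fun l => x (Sum.inr i :: l)) ηs = 0 := by
    intro b' i
    rcases j with _ | j
    · rw [hx.inr_zero i, tri_zero_right, smul_zero]
    rw [tri_eq_zero ηs _ _ (j + 1) j (hz.tsome _) (hx.inr i) (by omega), smul_zero]
  have h3 : ∀ b' : Ax m, ∑ ξ, tc (some (a, b')) ξ (Sum.inl b) •
      tri (fun l => z (some (a, b') :: l)) (fun l => x (ξ :: l)) ηs =
      ∑ a', tc (some (a, b')) (Sum.inl a') (Sum.inl b) •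
        tri (fun l => z (some (a, b') :: l)) (fun l => x (Sum.inl a' :: l)) ηs := by
    intro b'
    rw [Fintype.sum_sum_type]
    simp only [h2, Finset.sum_const_zero, add_zero]
  simp only [h3, tc_some_inl]
  rw [Finset.sum_eq_single b]
  · rw [Finset.sum_eq_single a]
    · simp
    · intro a' _ ha'; simp [Ne.symm ha']
    · intro h; exact absurd (Finset.mem_univ _) h
  · intro b' _ hb'
    refine Finset.sum_eq_zero fun a' _ => ?_
    simp [hb']
  · intro h; exact absurd (Finset.mem_univ _) h

theorem tri_inr {j : ℕ} {z : List (CS m) → K} {x : List (XS m) → M} {ηs : List (XS m)}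
    (hz : SuppZ (j + 1) z) (hx : SuppM (j + 1) x) (hj : nr ηs = j) (i : I2) :
    tri z x (Sum.inr i :: ηs) =
      tri (fun l => z (none :: l)) (fun l => x (Sum.inr i :: l)) ηs := by
  rw [tri_cons, Fintype.sum_option]
  have h1 : ∑ a : Ax m × Ax m, ∑ ξ, tc (some a) ξ (Sum.inr i) •
      tri (fun l => z (some a :: l)) (fun l => x (ξ :: l)) ηs = 0 := by
    refine Finset.sum_eq_zero fun a _ => Finset.sum_eq_zero fun ξ _ => ?_
    rcases hx.cons ξ with h' | ⟨jx', hjx, hx'⟩
    · rw [h', tri_zero_right, smul_zero]
    rw [tri_eq_zero ηs _ _ (j + 1) jx' (hz.tsome a) hx' (by omega), smul_zero]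
  rw [h1, add_zero, Finset.sum_eq_single (Sum.inr i)]
  · rw [tc_none]; simp
  · intro ξ _ hξ
    rw [tc_none]
    rcases ξ with a | i'
    · simp
    · have : i' ≠ i := fun h => hξ (by rw [h])
      simp [this]
  · intro h; exact absurd (Finset.mem_univ _) h

/-- sum over all words of length `n` -/
def rsum : ℕ → (List (Ax m) → M) → M
  | 0, f => f []
  | n + 1, f => ∑ a, rsum n (fun l => f (a :: l))

/-- the row symbols of a word -/
def rowX : List (XS m) → List (Ax m)
  | [] => []
  | Sum.inl a :: l => a :: rowX l
  | Sum.inr _ :: l => rowX l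

/-- the inner symbols of a word -/
def innX : List (XS m) → List I2
  | [] => []
  | Sum.inl _ :: l => innX l
  | Sum.inr i :: l => i :: innX l

/-- the column key of a word -/
def colX : List (XS m) → List (Option (Ax m))
  | [] => []
  | Sum.inl b :: l => some b :: colX l
  | Sum.inr _ :: l => none :: colX l

/-- the row symbols of an output word -/
def rowZ : List (CS m) → List (Ax m)
  | [] => []
  | some z :: l => z.1 :: rowZ l
  | none :: l => rowZ l

/-- the column key of an output word -/
def colZ : List (CS m) → List (Option (Ax m))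
  | [] => []
  | some z :: l => some z.2 :: colZ l
  | none :: l => none :: colZ l

def zval (Z : List (Ax m) → List (Option (Ax m)) → K) : List (CS m) → K :=
  fun l => Z (rowZ l) (colZ l)

def xvalM (F : List (Ax m) → List I2 → M) : List (XS m) → M := fun l => F (rowX l) (innX l)

theorem nn_colZ (l : List (CS m)) : nn (colZ l) = nn l := by
  induction l with
  | nil => simp [colZ, nn]
  | cons c l ih => rcases c with _ | a <;> simp [colZ, nn, ih]

theorem length_innX (l : List (XS m)) : (innX l).length = nr l := by
  induction l with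
  | nil => simp [innX, nr]
  | cons ξ l ih => rcases ξ with a | i <;> simp [innX, nr, ih]

theorem tri_val (ηs : List (XS m)) : ∀ (j n : ℕ) (Z : List (Ax m) → List (Option (Ax m)) → K)
    (F : List (Ax m) → List I2 → M), (∀ r κ, nn κ ≠ j → Z r κ = 0) →
    (∀ r l, l.length ≠ j → F r l = 0) → nr ηs = j → n + j = ηs.length →
    tri (zval Z) (xvalM F) ηs = rsum n (fun r => Z r (colX ηs) • F r (innX ηs)) := by
  induction ηs with
  | nil =>
    intro j n Z F _ _ hj hn
    simp only [List.length_nil] at hn
    obtain ⟨rfl, rfl⟩ : n = 0 ∧ j = 0 := by omega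
    simp [tri, preT, outT, pre, zval, xvalM, rsum, rowX, innX, colX, rowZ, colZ]
  | cons η ηs ih =>
    intro j n Z F hZ hF hj hn
    have hz : SuppZ j (zval Z) := fun l hl => hZ _ _ (by rwa [nn_colZ])
    have hx : SuppM j (xvalM F) := fun l hl => hF _ _ (by rwa [length_innX])
    rcases η with b | i
    · simp only [nr] at hj
      rw [tri_inl hz hx]
      have hnr : ∀ l : List (XS m), nr l ≤ l.length := by
        intro l
        induction l with
        | nil => simp [nr]
        | cons k l ih => rcases k with _ | b <;> simp [nr] <;> omega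
      obtain ⟨n, rfl⟩ : ∃ n', n = n' + 1 := by
        have := hnr ηs
        simp only [List.length_cons] at hn
        exact ⟨n - 1, by omega⟩
      simp only [rsum]
      refine Finset.sum_congr rfl fun a _ => ?_
      exact ih j n (fun r κ => Z (a :: r) (some b :: κ)) (fun r l => F (a :: r) l)
        (fun r κ hκ => hZ _ _ hκ) (fun r l hl => hF _ _ hl) hj
        (by simp only [List.length_cons] at hn; omega)
    · simp only [nr] at hj
      subst hj
      rw [tri_inr hz hx rfl]
      exact ih (nr ηs) n (fun r κ => Z r (none :: κ)) (fun r l => F r (i :: l))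
        (fun r κ hκ => hZ _ _ (by simpa [nn] using hκ))
        (fun r l hl => hF _ _ (by simpa using hl)) rfl
        (by simp only [List.length_cons] at hn; omega)

end Trilinear

end Pool.Agent.Zk35.MP
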