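import Pool.Agent.Zk35.TM.DualLower

set_option autoImplicit false

/-!
# The number of additions for one generic matrix and one vector
-/

namespace Pool.Agent.Zk35.MP

open Finset Pool.Agent.Zk35.TM

universe u

/-- every computed vector is a multiple of a vector whose coordinates depend on few parameters -/
theorem scaled {F K : Type u} {ι : Type} [Field F] [Field K] [Algebra F K]
    {C : Set K} {p m : ℕ} {S T : Set (ι → K)} (h : LComp C p m S T) :
    ∀ W0 : Finset K, (∀ x ∈ S, ∃ (ν : K) (g : ι → K),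
      (∀ j, g j ∈ Algebra.adjoin F (W0 : Set K)) ∧ x = ν • g) →
    ∃ W : Finset K, W.card ≤ W0.card + p ∧
      ∀ x ∈ T, ∃ (ν : K) (g : ι → K), (∀ j, g j ∈ Algebra.adjoin F (W : Set K)) ∧ x = ν • g := by
  classical
  induction h with
  | done h =>
    intro W0 h0
    exact ⟨W0, by omega, fun x hx => h0 x (h hx)⟩
  | @add p m S T x y hx hy _ ih =>
    intro W0 h0
    obtain ⟨ν, g, hg, hxg⟩ := h0 x hx
    obtain ⟨ν', g', hg', hyg⟩ := h0 y hy
    rcases eq_or_ne ν 0 with rfl | hν
    · obtain ⟨W, h1, h2⟩ := ih W0 (by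
        rintro z (rfl | hz)
        · exact ⟨ν', g', hg', by rw [hxg, hyg, zero_smul, zero_add]⟩
        · exact h0 z hz)
      exact ⟨W, by omega, h2⟩
    · have hsub : Algebra.adjoin F (W0 : Set K) ≤
          Algebra.adjoin F ((insert (ν⁻¹ * ν') W0 : Finset K) : Set K) :=
        Algebra.adjoin_mono (by simp)
      obtain ⟨W, h1, h2⟩ := ih (insert (ν⁻¹ * ν') W0) (by
        rintro z (rfl | hz)
        · refine ⟨ν, g + (ν⁻¹ * ν') • g', fun j => ?_, ?_⟩
          · exact Subalgebra.add_mem _ (hsub (hg j))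
              (Subalgebra.mul_mem _ (Algebra.subset_adjoin (by simp)) (hsub (hg' j)))
          · rw [hxg, hyg, smul_add, smul_smul, ← mul_assoc, mul_inv_cancel₀ hν, one_mul]
        · obtain ⟨ν'', g'', h3, h4⟩ := h0 z hz
          exact ⟨ν'', g'', fun j => hsub (h3 j), h4⟩)
      exact ⟨W, by have := Finset.card_insert_le (ν⁻¹ * ν') W0; omega, h2⟩
  | @sub p m S T x y hx hy _ ih =>
    intro W0 h0
    obtain ⟨ν, g, hg, hxg⟩ := h0 x hx
    obtain ⟨ν', g', hg', hyg⟩ := h0 y hy
    rcases eq_or_ne ν 0 with rfl | hν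
    · obtain ⟨W, h1, h2⟩ := ih W0 (by
        rintro z (rfl | hz)
        · exact ⟨-ν', g', hg', by rw [hxg, hyg, zero_smul, zero_sub, neg_smul]⟩
        · exact h0 z hz)
      exact ⟨W, by omega, h2⟩
    · have hsub : Algebra.adjoin F (W0 : Set K) ≤
          Algebra.adjoin F ((insert (ν⁻¹ * ν') W0 : Finset K) : Set K) :=
        Algebra.adjoin_mono (by simp)
      obtain ⟨W, h1, h2⟩ := ih (insert (ν⁻¹ * ν') W0) (by
        rintro z (rfl | hz)
        · refine ⟨ν, g - (ν⁻¹ * ν') • g', fun j => ?_, ?_⟩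
          · exact Subalgebra.sub_mem _ (hsub (hg j))
              (Subalgebra.mul_mem _ (Algebra.subset_adjoin (by simp)) (hsub (hg' j)))
          · rw [hxg, hyg, smul_sub, smul_smul, ← mul_assoc, mul_inv_cancel₀ hν, one_mul]
        · obtain ⟨ν'', g'', h3, h4⟩ := h0 z hz
          exact ⟨ν'', g'', fun j => hsub (h3 j), h4⟩)
      exact ⟨W, by have := Finset.card_insert_le (ν⁻¹ * ν') W0; omega, h2⟩
  | @smul p m S T c x hc hx _ ih =>
    intro W0 h0
    obtain ⟨ν, g, hg, hxg⟩ := h0 x hx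
    obtain ⟨W, h1, h2⟩ := ih W0 (by
      rintro z (rfl | hz)
      · exact ⟨c * ν, g, hg, by rw [hxg, smul_smul]⟩
      · exact h0 z hz)
    exact ⟨W, h1, h2⟩

/-- one generic matrix and one vector: additions -/
theorem lower_add {F K : Type u} [Field F] [Field K] [Algebra F K] {a b p m : ℕ}
    {C : Set K} (Z : Matrix (Fin a) (Fin b) K)
    (hZ : AlgebraicIndependent F fun e : Fin a × Fin b => Z e.1 e.2)
    (h : LComp C p m ({0} ∪ ent (fun (j : Fin b) (_ : Fin 1) => (Pi.single j 1 : Fin b → K)))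
      (ent (act Z fun (j : Fin b) (_ : Fin 1) => (Pi.single j 1 : Fin b → K)))) :
    a * b ≤ p + a := by
  classical
  obtain ⟨W, h1, h2⟩ := scaled (F := F) h ∅ (by
    rintro x (hx | ⟨j, _, rfl⟩)
    · rw [Set.mem_singleton_iff.1 hx]
      exact ⟨0, 0, fun _ => Subalgebra.zero_mem _, by rw [zero_smul]⟩
    · refine ⟨1, Pi.single j 1, fun j' => ?_, by rw [one_smul]⟩
      rcases eq_or_ne j' j with rfl | hj
      · rw [Pi.single_eq_same]; exact Subalgebra.one_mem _
      · rw [Pi.single_eq_of_ne hj]; exact Subalgebra.zero_mem _)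
  have h3 : ∀ i : Fin a, ∃ (ν : K) (g : Fin b → K),
      (∀ j, g j ∈ Algebra.adjoin F (W : Set K)) ∧
      act Z (fun (j : Fin b) (_ : Fin 1) => (Pi.single j 1 : Fin b → K)) i 0 = ν • g :=
    fun i => h2 _ ⟨i, 0, rfl⟩
  choose ν g hg hνg using h3
  have h4 := card_le_of_algInd hZ (W ∪ Finset.univ.image ν) (fun e => by
    have h5 : act Z (fun (j : Fin b) (_ : Fin 1) => (Pi.single j 1 : Fin b → K)) e.1 0 e.2 =
        Z e.1 e.2 := by
      simp [act, Finset.sum_apply, Pi.single_apply]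
    rw [hνg] at h5
    rw [← h5]
    exact Subalgebra.mul_mem _ (Algebra.subset_adjoin (by simp))
      (Algebra.adjoin_mono (by simp) (hg e.1 e.2)))
  rw [Fintype.card_prod, Fintype.card_fin, Fintype.card_fin] at h4
  have h6 := Finset.card_union_le W (Finset.univ.image ν)
  have h7 : (Finset.univ.image ν).card ≤ a := by
    refine Finset.card_image_le.trans ?_
    simp
  simp only [Finset.card_empty, zero_add] at h1
  omega

end Pool.Agent.Zk35.MP
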