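import Pool.Agent.Zk35.TM.Cost

set_option autoImplicit false

/-!
# The transposed identity with large outer alphabets

The outer alphabet is `Ax m = Fin 3 ⊕ Fin m`; only its first three symbols (the corner) take part in
the inner products.
-/

namespace Pool.Agent.Zk35.MP

open Finset Pool.Agent.Zk35.TM

abbrev Ax (m : ℕ) := Fin 3 ⊕ Fin m
abbrev CS (m : ℕ) := Option (Ax m × Ax m)
abbrev XS (m : ℕ) := Ax m ⊕ I2

/-- the corner -/
def cor {m : ℕ} : Ax m × Ax m → Prop
  | (Sum.inl _, Sum.inl _) => True
  | _ => False

instance {m : ℕ} : DecidablePred (cor (m := m)) := by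
  rintro ⟨a | a, b | b⟩
  · exact isTrue trivial
  · exact isFalse id
  · exact isFalse id
  · exact isFalse id

/-- coefficients of the left factors, one position -/
def al {m : ℕ} : CS m → XS m → ℤ
  | none, Sum.inl (Sum.inl _) => 1
  | none, Sum.inl (Sum.inr _) => 0
  | none, Sum.inr _ => 0
  | some (a, _), Sum.inl a' => if a = a' then 1 else 0
  | some (Sum.inl a, Sum.inl b), Sum.inr i => TM.al (some (a, b)) (Sum.inr i)
  | some (Sum.inl _, Sum.inr _), Sum.inr _ => 0
  | some (Sum.inr _, _), Sum.inr _ => 0

/-- coefficients of the right factors, one position -/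
def be {m : ℕ} : CS m → XS m → ℤ
  | none, Sum.inl (Sum.inl _) => 1
  | none, Sum.inl (Sum.inr _) => 0
  | none, Sum.inr _ => 0
  | some (_, b), Sum.inl b' => if b = b' then 1 else 0
  | some (Sum.inl a, Sum.inl b), Sum.inr i => TM.be (some (a, b)) (Sum.inr i)
  | some (Sum.inl _, Sum.inr _), Sum.inr _ => 0
  | some (Sum.inr _, _), Sum.inr _ => 0

/-- the structure constants of one position -/
def tc {m : ℕ} : CS m → XS m → XS m → ℤ
  | some z, x, y => al (some z) x * be (some z) y
  | none, x, y => (∑ z, if cor z then al (some z) x * be (some z) y else 0) -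
      al none x * be none y

theorem sum_cor {m : ℕ} (f : Ax m × Ax m → ℤ) : (∑ z, if cor z then f z else 0) =
    ∑ z : Fin 3 × Fin 3, f (Sum.inl z.1, Sum.inl z.2) := by
  rw [Fintype.sum_prod_type, Fintype.sum_prod_type, Fintype.sum_sum_type]
  simp [Fintype.sum_sum_type, cor]

theorem tc_none {m : ℕ} (x y : XS m) : tc none x y =
    match x, y with
    | Sum.inr i, Sum.inr l => if i = l then 1 else 0
    | _, _ => 0 := by
  have key := fun (x y : TM.XS) => TM.tc_none x y
  have e1 : ∀ i, TM.al none (Sum.inr i) = 0 := fun _ => rfl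
  have e2 : ∀ i, TM.be none (Sum.inr i) = 0 := fun _ => rfl
  simp only [tc, sum_cor]
  rcases x with (a | a) | i <;> rcases y with (b | b) | l
  · have := key (Sum.inl a) (Sum.inl b)
    simp only [TM.tc, TM.al, TM.be] at this
    simpa [al, be, e1, e2] using this
  · simp [al, be]
  · have := key (Sum.inl a) (Sum.inr l)
    simp only [TM.tc, TM.al] at this
    simpa [al, be, e1, e2] using this
  · simp [al, be]
  · simp [al, be]
  · simp [al, be]
  · have := key (Sum.inr i) (Sum.inl b)
    simp only [TM.tc, TM.be] at this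
    simpa [al, be, e1, e2] using this
  · simp [al, be]
  · have := key (Sum.inr i) (Sum.inr l)
    simp only [TM.tc] at this
    simpa [al, be, e1, e2] using this

theorem tc_some_inl {m : ℕ} (a b a' b' : Ax m) :
    tc (some (a, b)) (Sum.inl a') (Sum.inl b') = if a = a' then (if b = b' then 1 else 0) else 0 := by
  simp only [tc, al, be]
  split_ifs <;> simp

end Pool.Agent.Zk35.MP
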