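import Pool.Agent.Zk35.MP.Tiles

set_option autoImplicit false

/-!
# A fixed matrix times several vectors: parameters
-/

namespace Pool.Agent.Zk35.MP

open Finset Pool.Agent.Zk35.TM

/-- the number of output words with exactly `J` symbols `none` -/
def vc (q s J : ℕ) : ℕ := s.choose J * q ^ (s - J)

theorem wc_zero (q s : ℕ) : wc q s 0 = q ^ s := by
  induction s with
  | zero => rfl
  | succ s ih => rw [wc, ih, pow_succ, mul_comm]

theorem vc_succ (q s J : ℕ) : vc q (s + 1) (J + 1) = q * vc q s (J + 1) + vc q s J := by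
  unfold vc
  rw [Nat.choose_succ_succ, Nat.add_sub_add_right]
  rcases Nat.lt_or_ge s (J + 1) with h | h
  · rw [Nat.choose_eq_zero_of_lt h]; ring
  · obtain ⟨t, rfl⟩ := Nat.exists_eq_add_of_le h
    have e1 : J + 1 + t - J = t + 1 := by omega
    have e2 : J + 1 + t - (J + 1) = t := by omega
    rw [e1, e2, pow_succ]
    ring

theorem wc_eq (q s : ℕ) : ∀ J, wc q s (J + 1) = wc q s J + vc q s (J + 1) := by
  induction s with
  | zero => intro J; simp [wc, vc]
  | succ s ih =>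
    intro J
    rw [wc, vc_succ, ih J]
    rcases J with _ | J
    · rw [wc_zero, wc_zero, pow_succ]
      have : vc q s 0 = q ^ s := by simp [vc]
      rw [this]
      ring
    · rw [wc, ih J]
      ring

theorem vc_ratio {q s J D : ℕ} (h : q * (D + 1) * (J + 1) + J ≤ s) (hq : 1 ≤ q) :
    (D + 1) * vc q s J ≤ vc q s (J + 1) := by
  unfold vc
  have hJ : J + 1 ≤ s := by nlinarith [Nat.zero_le (q * D * (J + 1))]
  obtain ⟨t, rfl⟩ := Nat.exists_eq_add_of_le hJ
  have e1 : J + 1 + t - J = t + 1 := by omega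
  have e2 : J + 1 + t - (J + 1) = t := by omega
  rw [e1, e2]
  have h1 := Nat.choose_succ_right_eq (J + 1 + t) J
  rw [e1] at h1
  have h2 : q * (D + 1) * (J + 1) ≤ t + 1 := by omega
  have h3 : (J + 1) * ((D + 1) * ((J + 1 + t).choose J * q ^ (t + 1))) ≤
      (J + 1) * ((J + 1 + t).choose (J + 1) * q ^ t) := by
    calc (J + 1) * ((D + 1) * ((J + 1 + t).choose J * q ^ (t + 1)))
        = (q * (D + 1) * (J + 1)) * ((J + 1 + t).choose J * q ^ t) := by ring
      _ ≤ (t + 1) * ((J + 1 + t).choose J * q ^ t) := Nat.mul_le_mul_right _ h2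
      _ = ((J + 1 + t).choose J * (t + 1)) * q ^ t := by ring
      _ = ((J + 1 + t).choose (J + 1) * (J + 1)) * q ^ t := by rw [h1]
      _ = _ := by ring
  exact Nat.le_of_mul_le_mul_left h3 (Nat.succ_pos J)

theorem wc_le {q s D : ℕ} (hq : 1 ≤ q) :
    ∀ J, q * (D + 1) * J + J ≤ s → D * wc q s J ≤ (D + 1) * vc q s J := by
  intro J
  induction J with
  | zero =>
    intro _
    rw [wc_zero]
    simp only [vc, Nat.choose_zero_right, Nat.sub_zero, one_mul]
    exact Nat.mul_le_mul_right _ (Nat.le_succ D)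
  | succ J ih =>
    intro h
    have h1 : q * (D + 1) * J + J ≤ s := by nlinarith
    have h2 := ih h1
    have h3 : (D + 1) * vc q s J ≤ vc q s (J + 1) := vc_ratio (by nlinarith) hq
    rw [wc_eq]
    nlinarith

theorem wc_succ (q s J : ℕ) : q * wc q s J ≤ wc q (s + 1) J := by
  rcases J with _ | J <;> simp [wc]

theorem cf_le (N r t s J : ℕ) : r * cf (N + r) N t s J ≤ t * wc (N + r) s J := by
  induction s with
  | zero => simp [cf]
  | succ s ih =>
    have h1 := wc_succ (N + r) s J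
    rw [cf]
    calc r * (N * cf (N + r) N t s J + t * wc (N + r) s J)
        = N * (r * cf (N + r) N t s J) + r * (t * wc (N + r) s J) := by ring
      _ ≤ N * (t * wc (N + r) s J) + r * (t * wc (N + r) s J) :=
        Nat.add_le_add_right (Nat.mul_le_mul_left _ ih) _
      _ = t * ((N + r) * wc (N + r) s J) := by ring
      _ ≤ _ := Nat.mul_le_mul_left _ h1

theorem wadd_le {d : ℕ} (hd : 1 ≤ d) (s J : ℕ) :
    8 * d * wadd (14 * d - 3) s J ≤ (8 * d + 1) * wc ((14 * d) ^ 2) s J := by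
  obtain ⟨e, rfl⟩ : ∃ e, d = e + 1 := ⟨d - 1, by omega⟩
  have e1 : 14 * (e + 1) - 3 = 14 * e + 11 := by omega
  have e2 : 3 + (14 * e + 11) = 14 * (e + 1) := by ring
  rw [wadd, e1, e2]
  set N := 14 * e + 11 + 7 with hN
  set r := 196 * e ^ 2 + 378 * e + 178 with hr
  have e3 : (14 * (e + 1)) ^ 2 = N + r := by rw [hN, hr]; ring
  rw [e3]
  have h1 := cf_le N r 10 s J
  have h2 := cf_le N r ((14 * e + 11 + 3) * (14 * e + 11 + 2) + 7) s J
  set c1 := cf (N + r) N 10 s J with hc1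
  set c2 := cf (N + r) N ((14 * e + 11 + 3) * (14 * e + 11 + 2) + 7) s J with hc2
  set W := wc (N + r) s J with hW
  have h3 : r * (c1 + c2) ≤ (r + 21) * W := by
    have : (10 + ((14 * e + 11 + 3) * (14 * e + 11 + 2) + 7)) = r + 21 := by rw [hr]; ring
    calc r * (c1 + c2) = r * c1 + r * c2 := by ring
      _ ≤ 10 * W + ((14 * e + 11 + 3) * (14 * e + 11 + 2) + 7) * W := Nat.add_le_add h1 h2
      _ = (10 + ((14 * e + 11 + 3) * (14 * e + 11 + 2) + 7)) * W := by ring
      _ = _ := by rw [this]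
  have h4 : 8 * (e + 1) * 21 ≤ r := by
    rw [hr]
    nlinarith [sq_nonneg e]
  have h5 : r * (8 * (e + 1) * (c1 + c2)) ≤ r * ((8 * (e + 1) + 1) * W) := by
    calc r * (8 * (e + 1) * (c1 + c2)) = 8 * (e + 1) * (r * (c1 + c2)) := by ring
      _ ≤ 8 * (e + 1) * ((r + 21) * W) := Nat.mul_le_mul_left _ h3
      _ = (8 * (e + 1) * r + 8 * (e + 1) * 21) * W := by ring
      _ ≤ (8 * (e + 1) * r + r) * W := Nat.mul_le_mul_right _ (by omega)
      _ = _ := by ring
  exact Nat.le_of_mul_le_mul_left h5 (by rw [hr]; positivity)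

theorem size_bound {d k : ℕ} (hd : 1 ≤ d) (hk : 2 ≤ k) :
    8 * d * (2 ^ (Nat.clog 4 k * (1568 * d ^ 3 + 196 * d ^ 2 + 1)) *
      (14 * d) ^ (Nat.clog 4 k * (1568 * d ^ 3 + 196 * d ^ 2 + 1) - Nat.clog 4 k)) ≤
      k ^ (9000 * d ^ 4) := by
  set J := Nat.clog 4 k with hJ
  have h1 : 2 ^ J ≤ k := by
    have := clog_le_log hk
    rw [← hJ] at this
    exact (Nat.pow_le_pow_right (by norm_num) this).trans (Nat.pow_log_le_self 2 (by omega))
  have h2 : J * (1568 * d ^ 3 + 196 * d ^ 2 + 1) ≤ J * (1765 * d ^ 3) := by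
    refine Nat.mul_le_mul_left _ ?_
    have e1 : d ^ 2 ≤ d ^ 3 := Nat.pow_le_pow_right hd (by norm_num)
    have e2 : 1 ≤ d ^ 3 := Nat.one_le_pow _ _ hd
    omega
  have h3 : 28 * d ≤ 2 ^ (5 * d) := by
    have : d ≤ 2 ^ (d - 1) := by
      obtain ⟨e, rfl⟩ : ∃ e, d = e + 1 := ⟨d - 1, by omega⟩
      rw [Nat.add_sub_cancel]
      exact Nat.lt_two_pow_self
    calc 28 * d ≤ 32 * 2 ^ (d - 1) := Nat.mul_le_mul (by norm_num) this
      _ = 2 ^ (5 + (d - 1)) := by rw [pow_add]; norm_num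
      _ ≤ 2 ^ (5 * d) := Nat.pow_le_pow_right (by norm_num) (by omega)
  have h4 : 8 * d ≤ 2 ^ (3 * d) := by
    have : d ≤ 2 ^ (d - 1) := by
      obtain ⟨e, rfl⟩ : ∃ e, d = e + 1 := ⟨d - 1, by omega⟩
      rw [Nat.add_sub_cancel]
      exact Nat.lt_two_pow_self
    calc 8 * d ≤ 8 * 2 ^ (d - 1) := Nat.mul_le_mul_left _ this
      _ = 2 ^ (3 + (d - 1)) := by rw [pow_add]; norm_num
      _ ≤ 2 ^ (3 * d) := Nat.pow_le_pow_right (by norm_num) (by omega)
  set s := J * (1568 * d ^ 3 + 196 * d ^ 2 + 1) with hs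
  have h5 : 2 ^ s * (14 * d) ^ (s - J) ≤ (28 * d) ^ s := by
    calc 2 ^ s * (14 * d) ^ (s - J) ≤ 2 ^ s * (14 * d) ^ s :=
          Nat.mul_le_mul_left _ (Nat.pow_le_pow_right (by omega) (Nat.sub_le _ _))
      _ = (28 * d) ^ s := by rw [← mul_pow]; congr 1; ring
  calc 8 * d * (2 ^ s * (14 * d) ^ (s - J)) ≤ 2 ^ (3 * d) * (28 * d) ^ s :=
        Nat.mul_le_mul h4 h5
    _ ≤ 2 ^ (3 * d) * (2 ^ (5 * d)) ^ s := Nat.mul_le_mul_left _ (Nat.pow_le_pow_left h3 _)
    _ ≤ 2 ^ (3 * d) * (2 ^ (5 * d)) ^ (J * (1765 * d ^ 3)) :=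
        Nat.mul_le_mul_left _ (Nat.pow_le_pow_right (by positivity) h2)
    _ = 2 ^ (3 * d) * (2 ^ J) ^ (8825 * d ^ 4) := by
        rw [← pow_mul, ← pow_mul]
        congr 2
        ring
    _ ≤ k ^ (3 * d) * k ^ (8825 * d ^ 4) :=
        Nat.mul_le_mul (Nat.pow_le_pow_left hk _) (Nat.pow_le_pow_left h1 _)
    _ = k ^ (3 * d + 8825 * d ^ 4) := by rw [pow_add]
    _ ≤ k ^ (9000 * d ^ 4) := by
        refine Nat.pow_le_pow_right (by omega) ?_
        have : d ≤ d ^ 4 := Nat.le_self_pow (by norm_num) d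
        omega

universe u v w

theorem fixed {K : Type u} [Ring K] {d k a b : ℕ} (hd : 1 ≤ d) (hk : 1 ≤ k)
    (ha : k ^ (9000 * d ^ 4) ≤ a) (hb : k ^ (9000 * d ^ 4) ≤ b) (Z : Matrix (Fin a) (Fin b) K) :
    ∃ C : Set K, AComp (20 * Nat.log 2 k * (a * b)) ({0} ∪ ent Z) C ∧
      ∀ (M : Type v) [AddCommGroup M] [Module K M] (κ : Type w) [Fintype κ],
        Fintype.card κ ≤ k → ∀ X : Matrix (Fin b) κ M,
        LComp C ((d + 1) * (a * b) / d) ((d + 1) * (a * b) / d)
          ({0} ∪ ent X) (ent (act Z X)) := by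
  have ha1 : 1 ≤ a := le_trans (Nat.one_le_pow _ _ hk) ha
  have hb1 : 1 ≤ b := le_trans (Nat.one_le_pow _ _ hk) hb
  rcases Nat.lt_or_ge k 2 with hk2 | hk2
  · obtain ⟨C, h1, h2⟩ := tiles_dual (s := 0) (J := 0) 0 (le_refl 0) Z
    have e1 : (a - 1) / (Nat.choose 0 0 * (3 + 0) ^ (0 - 0)) + 1 = a := by simp; omega
    have e2 : (b - 1) / (3 + 0) ^ (0 - 0) + 1 = b := by simp; omega
    rw [e1, e2] at h1 h2
    have e3 : a * b ≤ (d + 1) * (a * b) / d := by
      rw [Nat.le_div_iff_mul_le (by omega)]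
      nlinarith [Nat.zero_le (a * b)]
    refine ⟨C, h1.mono (by simp) subset_rfl subset_rfl, ?_⟩
    intro M _ _ κ _ hκ X
    have h3 := h2 M κ 1 (by omega) (by simp) X
    refine h3.mono subset_rfl ?_ ?_ subset_rfl subset_rfl
    · simp only [wadd, cf, Nat.choose_self, Nat.sub_self, pow_zero]; omega
    · simp only [wc]; omega
  · set J := Nat.clog 4 k with hJ
    set s := J * (1568 * d ^ 3 + 196 * d ^ 2 + 1) with hs
    have hJs : J ≤ s := by rw [hs]; exact Nat.le_mul_of_pos_right _ (by positivity)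
    have e14 : 3 + (14 * d - 3) = 14 * d := by omega
    obtain ⟨C, h, h'⟩ := tiles_dual (s := s) (J := J) (14 * d - 3) hJs Z
    rw [e14] at h h'
    set b0 := (14 * d) ^ (s - J) with hb0
    set a0 := s.choose J * b0 with ha0
    have hsz := size_bound hd hk2
    rw [← hJ, ← hs, ← hb0] at hsz
    have hch : s.choose J ≤ 2 ^ s := Nat.choose_le_two_pow s J
    have hb0' : 8 * d * b0 ≤ b := by
      refine le_trans ?_ (hsz.trans hb)
      refine Nat.mul_le_mul_left _ ?_
      exact Nat.le_mul_of_pos_left _ (by positivity)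
    have ha0' : 8 * d * a0 ≤ a :=
      le_trans (Nat.mul_le_mul_left _ (Nat.mul_le_mul_right _ hch)) (hsz.trans ha)
    have hb0p : 0 < b0 := pow_pos (by omega) _
    have ha0p : 0 < a0 := Nat.mul_pos (Nat.choose_pos hJs) hb0p
    have hNa : a0 * ((a - 1) / a0 + 1) ≤ a + a0 := by
      have := Nat.mul_div_le (a - 1) a0
      rw [mul_add, mul_one]; omega
    have hNb : b0 * ((b - 1) / b0 + 1) ≤ b + b0 := by
      have := Nat.mul_div_le (b - 1) b0
      rw [mul_add, mul_one]; omega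
    have hvc : vc ((14 * d) ^ 2) s J = a0 * b0 := by
      rw [vc, ha0, hb0, ← pow_mul, mul_comm 2, pow_mul, sq]
      ring
    have hw8 : 8 * d * wc ((14 * d) ^ 2) s J ≤ (8 * d + 1) * (a0 * b0) := by
      have h1 := wc_le (q := (14 * d) ^ 2) (s := s) (D := 8 * d)
        (Nat.one_le_pow _ _ (by omega)) J (by rw [hs]; apply le_of_eq; ring)
      rwa [hvc] at h1
    have hw : 2 * d * wc ((14 * d) ^ 2) s J ≤ (2 * d + 1) * (a0 * b0) := by
      have h1 : 4 * (2 * d * wc ((14 * d) ^ 2) s J) ≤ 4 * ((2 * d + 1) * (a0 * b0)) := by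
        nlinarith [Nat.zero_le (a0 * b0)]
      omega
    have hk8 : 8 * d * k ≤ b0 := by
      have h1 : k ≤ 4 ^ J := Nat.le_pow_clog (by norm_num) k
      have hJ1 : 1 ≤ J := Nat.clog_pos (by norm_num) hk2
      calc 8 * d * k ≤ (14 * d) ^ J * (14 * d) ^ J := by
            refine Nat.mul_le_mul ?_ (h1.trans (Nat.pow_le_pow_left (by omega) _))
            calc 8 * d ≤ (14 * d) ^ 1 := by rw [pow_one]; omega
              _ ≤ (14 * d) ^ J := Nat.pow_le_pow_right (by omega) hJ1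
        _ = (14 * d) ^ (J + J) := by rw [pow_add]
        _ ≤ b0 := Nat.pow_le_pow_right (by omega) (by
            have : s = J + J + J + J * (1568 * d ^ 3 + 196 * d ^ 2 - 2) := by
              rw [hs]
              have e1 : 2 ≤ 1568 * d ^ 3 + 196 * d ^ 2 := by
                have : 1 ≤ d ^ 3 := Nat.one_le_pow _ _ hd
                omega
              obtain ⟨f, hf⟩ := Nat.exists_eq_add_of_le e1
              rw [hf, Nat.add_sub_cancel_left]
              ring
            omega)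
    have hW : 2 * d * (wadd (14 * d - 3) s J + a0 * k) ≤ (2 * d + 1) * (a0 * b0) := by
      have h1 := wadd_le hd s J
      set w1 := wadd (14 * d - 3) s J with hw1
      set w2 := wc ((14 * d) ^ 2) s J with hw2
      set v := a0 * b0 with hv
      have h2 : 8 * d * (a0 * k) ≤ v := by
        calc 8 * d * (a0 * k) = a0 * (8 * d * k) := by ring
          _ ≤ v := Nat.mul_le_mul_left _ hk8
      have h3 : 8 * d * (8 * d * w1) ≤ (8 * d + 1) * ((8 * d + 1) * v) := by
        calc 8 * d * (8 * d * w1) ≤ 8 * d * ((8 * d + 1) * w2) := Nat.mul_le_mul_left _ h1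
          _ = (8 * d + 1) * (8 * d * w2) := by ring
          _ ≤ (8 * d + 1) * ((8 * d + 1) * v) := Nat.mul_le_mul_left _ hw8
      have h4 : 32 * d * (2 * d * (w1 + a0 * k)) ≤ 32 * d * ((2 * d + 1) * v) := by
        calc 32 * d * (2 * d * (w1 + a0 * k))
            = 8 * d * (8 * d * w1) + 8 * d * (8 * d * (a0 * k)) := by ring
          _ ≤ (8 * d + 1) * ((8 * d + 1) * v) + 8 * d * v :=
            Nat.add_le_add h3 (Nat.mul_le_mul_left _ h2)
          _ = (64 * d ^ 2 + 24 * d + 1) * v := by ring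
          _ ≤ (64 * d ^ 2 + 32 * d) * v := Nat.mul_le_mul_right _ (by omega)
          _ = _ := by ring
      exact Nat.le_of_mul_le_mul_left h4 (by omega)
    have hmain := numeric hd ha0' hb0' hNa hNb hw
    have hmain' := numeric hd ha0' hb0' hNa hNb hW
    set n := ((a - 1) / a0 + 1) * ((b - 1) / b0 + 1) * wc ((14 * d) ^ 2) s J with hn
    have hm1 : n ≤ (d + 1) * (a * b) / d := by
      rw [Nat.le_div_iff_mul_le (by omega), mul_comm]
      exact hmain
    have hm2 : n ≤ 2 * (a * b) := by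
      have h3 : d * n ≤ d * (2 * (a * b)) := by
        refine hmain.trans ?_
        nlinarith [Nat.zero_le (a * b)]
      exact Nat.le_of_mul_le_mul_left h3 (by omega)
    refine ⟨C, h.mono ?_ subset_rfl subset_rfl, ?_⟩
    · have h1 : ((a - 1) / a0 + 1) * ((b - 1) / b0 + 1) * (10 * J * wc ((14 * d) ^ 2) s J) =
        10 * J * n := by rw [hn]; ring
      rw [h1]
      have h4 : J ≤ Nat.log 2 k := clog_le_log hk2
      calc 10 * J * n ≤ 10 * Nat.log 2 k * (2 * (a * b)) :=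
            Nat.mul_le_mul (by omega) hm2
        _ = 20 * Nat.log 2 k * (a * b) := by ring
    · intro M _ _ κ _ hκ X
      have h3 := h' M κ k hκ (Nat.le_pow_clog (by norm_num) k) X
      refine h3.mono subset_rfl ?_ hm1 subset_rfl subset_rfl
      rw [Nat.le_div_iff_mul_le (by omega), mul_comm]
      exact hmain'

/-- both matrices are variable -/
theorem batches {R : Type u} [Ring R] {d k a b c : ℕ} (hd : 1 ≤ d) (hk : 1 ≤ k)
    (ha : k ^ (9000 * d ^ 4) ≤ a) (hb : k ^ (9000 * d ^ 4) ≤ b) (Z : Matrix (Fin a) (Fin b) R)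
    (X : Matrix (Fin b) (Fin c) R) :
    Comp (20 * Nat.log 2 k * (a * b) + ((c - 1) / k + 1) * ((d + 1) * (a * b) / d))
      (((c - 1) / k + 1) * ((d + 1) * (a * b) / d)) ({0} ∪ ent Z ∪ ent X) (ent (Z * X)) := by
  classical
  obtain ⟨C, h1, h2⟩ := fixed.{u, u, 0} hd hk ha hb Z
  have h3 : Comp (20 * Nat.log 2 k * (a * b)) 0 ({0} ∪ ent Z ∪ ent X) C :=
    h1.toComp.mono le_rfl le_rfl Set.subset_union_left subset_rfl
  have h4 := Comp.finset (S := ({0} ∪ ent Z ∪ ent X) ∪ C)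
    (fun q : ℕ => {x | ∃ (i : Fin a) (l : Fin c), l.1 / k = q ∧ x = (Z * X) i l})
    (Finset.range ((c - 1) / k + 1)) (fun q _ => by
      have h5 := h2 R {l : Fin c // l.1 / k = q} (card_block (by omega) q)
        (fun j l => X j l.1)
      have h6 := (h5.mono (S' := ({0} ∪ ent Z ∪ ent X) ∪ C) subset_rfl le_rfl le_rfl (by
        rintro x (hx | ⟨j, l, rfl⟩)
        · exact Or.inl (Or.inl (Or.inl hx))
        · exact Or.inl (Or.inr ⟨j, l.1, rfl⟩)) subset_rfl).toComp Set.subset_union_right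
      refine h6.mono le_rfl le_rfl subset_rfl ?_
      rintro x ⟨i, l, hl, rfl⟩
      refine ⟨i, ⟨l, hl⟩, ?_⟩
      rw [Matrix.mul_apply]
      rfl)
  rw [Finset.card_range] at h4
  refine (h3.trans h4).mono le_rfl (by omega) subset_rfl ?_
  rintro x ⟨i, l, rfl⟩
  refine Or.inr ⟨l.1 / k, ?_, i, l, rfl, rfl⟩
  rw [Finset.mem_range]
  exact Nat.lt_succ_of_le (Nat.div_le_div_right (by have := l.2; omega))

end Pool.Agent.Zk35.MP
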