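import Pool.Agent.Zk35.MP.Core
import Pool.Agent.Zk35.TM.DualTiles

set_option autoImplicit false

/-!
# A fixed matrix times several vectors: all tiles
-/

namespace Pool.Agent.Zk35.MP

open Finset Pool.Agent.Zk35.TM

universe u v w

/-- the number of additions of one tile -/
def wadd (m s J : ℕ) : ℕ :=
  cf ((3 + m) ^ 2) (m + 7) 10 s J + cf ((3 + m) ^ 2) (m + 7) ((m + 3) * (m + 2) + 7) s J

/-- a fixed matrix times several vectors, by tiles -/
theorem tiles_dual {K : Type u} [Ring K] {a b s J : ℕ} (m : ℕ) (hJ : J ≤ s)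
    (Z : Matrix (Fin a) (Fin b) K) :
    ∃ C : Set K,
      AComp (((a - 1) / (s.choose J * (3 + m) ^ (s - J)) + 1) *
        ((b - 1) / (3 + m) ^ (s - J) + 1) *
        (10 * J * wc ((3 + m) ^ 2) s J)) ({0} ∪ ent Z) C ∧
      ∀ (M : Type v) [AddCommGroup M] [Module K M] (κ : Type w) [Fintype κ] (k : ℕ),
        Fintype.card κ ≤ k → k ≤ 4 ^ J → ∀ X : Matrix (Fin b) κ M,
        LComp C (((a - 1) / (s.choose J * (3 + m) ^ (s - J)) + 1) *
            ((b - 1) / (3 + m) ^ (s - J) + 1) *
            (wadd m s J + s.choose J * (3 + m) ^ (s - J) * k))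
          (((a - 1) / (s.choose J * (3 + m) ^ (s - J)) + 1) *
            ((b - 1) / (3 + m) ^ (s - J) + 1) * wc ((3 + m) ^ 2) s J)
          ({0} ∪ ent X) (ent (act Z X)) := by
  classical
  set b0 := (3 + m) ^ (s - J) with hb0
  set a0 := s.choose J * b0 with ha0
  have hb0' : 0 < b0 := pow_pos (by omega) _
  have ha0' : 0 < a0 := Nat.mul_pos (Nat.choose_pos hJ) hb0'
  set Na := (a - 1) / a0 + 1 with hNa
  set Nb := (b - 1) / b0 + 1 with hNb
  have htile : ∀ pq : ℕ × ℕ, ∃ C : Set K, AComp (10 * J * wc ((3 + m) ^ 2) s J)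
      ({0} ∪ ent Z) C ∧
      ∀ (M : Type v) [AddCommGroup M] [Module K M] (κ : Type w) [Fintype κ],
        Fintype.card κ ≤ 4 ^ J → ∀ X : Matrix {j : Fin b // j.1 / b0 = pq.2} κ M,
        LComp C (wadd m s J) (wc ((3 + m) ^ 2) s J) ({0} ∪ ent X)
          (ent (act (fun (i : {i : Fin a // i.1 / a0 = pq.1})
            (j : {j : Fin b // j.1 / b0 = pq.2}) => Z i.1 j.1) X)) := by
    intro pq
    obtain ⟨C, h1, h2⟩ := tile_dual (ι := {j : Fin b // j.1 / b0 = pq.2})
      (μ := {i : Fin a // i.1 / a0 = pq.1}) m hJ (card_block hb0' _) (card_block ha0' _)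
      (fun i j => Z i.1 j.1)
    refine ⟨C, h1.mono le_rfl ?_ subset_rfl, h2⟩
    refine Set.union_subset_union subset_rfl ?_
    rintro x ⟨i, j, rfl⟩
    exact ⟨i.1, j.1, rfl⟩
  choose C hC1 hC2 using htile
  refine ⟨{x | ∃ pq ∈ Finset.range Na ×ˢ Finset.range Nb, x ∈ C pq}, ?_, ?_⟩
  · have h := AComp.finset C (Finset.range Na ×ˢ Finset.range Nb) (fun pq _ => hC1 pq)
    rwa [Finset.card_product, Finset.card_range, Finset.card_range] at h
  · intro M _ _ κ _ k hκ hk X
    set C' : Set K := {x | ∃ pq ∈ Finset.range Na ×ˢ Finset.range Nb, x ∈ C pq} with hC'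
    -- one block of rows
    have h1 : ∀ p ∈ Finset.range Na, LComp C' (Nb * (wadd m s J + a0 * k))
        (Nb * wc ((3 + m) ^ 2) s J)
        ({0} ∪ ent X) {x | ∃ (i : Fin a) (l : κ), i.1 / a0 = p ∧ x = act Z X i l} := by
      intro p hp
      have h2 := LComp.sum_list (C := C') (p := wadd m s J) (m := wc ((3 + m) ^ 2) s J)
        (S := {0} ∪ ent X) (Or.inl rfl)
        (Finset.univ : Finset ({i : Fin a // i.1 / a0 = p} × κ))
        (fun q e => ∑ j : {j : Fin b // j.1 / b0 = q}, Z e.1.1 j.1 • X j.1 e.2) (List.range Nb)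
        (fun q hq => by
          have h3 := hC2 (p, q) M κ (hκ.trans hk) (fun j l => X j.1 l)
          refine h3.mono ?_ le_rfl le_rfl ?_ ?_
          · intro x hx
            exact ⟨(p, q), Finset.mem_product.2 ⟨hp, Finset.mem_range.2 (List.mem_range.1 hq)⟩, hx⟩
          · refine Set.union_subset_union subset_rfl ?_
            rintro x ⟨j, l, rfl⟩
            exact ⟨j.1, l, rfl⟩
          · rintro x ⟨e, _, rfl⟩
            exact ⟨e.1, e.2, rfl⟩)
      refine h2.mono subset_rfl ?_ (by rw [List.length_range]) subset_rfl ?_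
      · rw [List.length_range]
        refine Nat.mul_le_mul_left _ ?_
        have h4 : (Finset.univ : Finset ({i : Fin a // i.1 / a0 = p} × κ)).card ≤ a0 * k := by
          rw [Finset.card_univ, Fintype.card_prod]
          exact Nat.mul_le_mul (card_block ha0' _) hκ
        omega
      · rintro x ⟨i, l, hi, rfl⟩
        refine ⟨(⟨i, hi⟩, l), Finset.mem_univ _, ?_⟩
        show ∑ j, Z i j • X j l = _
        rw [← Finset.sum_fiberwise_of_maps_to (g := fun j : Fin b => j.1 / b0)
          (t := Finset.range Nb) (fun j _ => by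
            rw [Finset.mem_range]
            exact Nat.lt_succ_of_le (Nat.div_le_div_right (by have := j.2; omega)))]
        rw [← List.toFinset_range, List.sum_toFinset _ (List.nodup_range)]
        congr 1
        refine List.map_congr_left fun q _ => ?_
        rw [Finset.sum_subtype (Finset.univ.filter fun j : Fin b => j.1 / b0 = q)
          (p := fun j : Fin b => j.1 / b0 = q) (fun j => by simp)]
    have h2 := LComp.finset _ (Finset.range Na) h1
    rw [Finset.card_range] at h2
    refine h2.mono subset_rfl (le_of_eq (mul_assoc _ _ _).symm)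
      (le_of_eq (mul_assoc _ _ _).symm) subset_rfl ?_
    rintro x ⟨i, l, rfl⟩
    refine ⟨i.1 / a0, ?_, i, l, rfl, rfl⟩
    rw [Finset.mem_range]
    exact Nat.lt_succ_of_le (Nat.div_le_div_right (by have := i.2; omega))

end Pool.Agent.Zk35.MP
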